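import Pool.Agent.R925.L.Fin
import Pool.Agent.V11235.SL.Res
import Pool.Agent.V11235.SL.Uni

/-!
# The pro-`ℓ` section conjecture for étale coverings of twists by rotations over `p`-adic fields

Let `k` be a finite extension of `ℚ_p`, or any complete discretely valued field of characteristic
zero with finite residue field, let `A` be its valuation ring, let `ℓ` be a prime number which is
invertible in `A`, `m = ℓ^j` with `j ≥ 1`, and let `g ∈ A[x]` be a polynomial with invertible leading
coefficient such that the reduction of `g(x^m)` is separable and its degree is at least 3.  Let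
`d ∈ k` be any element different from zero, and let `a ∈ k` be an element whose valuation is not
divisible by `m`.  Let `C` be the smooth projective curve `d y^ℓ = g(a x^m)` over `k`, with function
field `F = k(x, y)`.  Let `M` be the maximal pro-`ℓ` extension of `k̄ F` that is unramified over `C`, and
let `Y → C` be a finite étale covering, `Y` geometrically connected, with function field `L ⊆ M`; this
means that the Galois group of the Galois closure of `Y → C` over `k̄` is an `ℓ`-group.  Then
`Gal(M/L)` is the geometrically pro-`ℓ` fundamental group of `Y`.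

**Theorem.**  Every section `s` of `Gal(M/L) → G_k` is the section of exactly one point of `Y` above a
point of `C` with `x = 0` or `x = ∞`, and this is a `k`-rational point of `Y`: there is exactly one
prolongation `W` to `M` of the valuation of a point of `C` with `x = 0`, `x = ∞` or `y = 0` such that
the image of `s` is contained in the decomposition group of `W`, it is above a point with `x = 0` or
`x = ∞`, and the residue field of `W ∩ L` is `k`.  Moreover `s` is the only section with its image in the
decomposition group of `W`.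

So every section of the geometrically pro-`ℓ` fundamental group of one of these curves `Y`, whose genus
can be arbitrarily large and whose geometric monodromy group over `C` can be any finite quotient of the
pro-`ℓ` fundamental group of `C`, comes from a rational point.  In particular, if `π₁(Y) → G_k` has a
section, then `Y` has a rational point; the section conjecture is reduced to statements of this form
(for all étale coverings).  The covering `Y` may have no rational point although `C` has one.

The starting result `MP_c385f6_ag.TwistsByRotations` is the case `Y = C`, `L = F`, without the statement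
on the uniqueness of the section with a given `W`, and the starting result `MP_c385f6_ag.EtaleCoverings`
is on the étale coverings of the curves `d y^ℓ = f(x)`, `d` of valuation prime to `ℓ`, where the points are
above the branch points.  Here the valuation of `d` is arbitrary, and no branch point of the covering
`x : C → ℙ¹` is fixed by the inertia group of `k`, which acts on the good reduction of `C` over a ramified
extension through automorphisms `(x, y) ↦ (ζ x, ξ y)` with `ζ ≠ 1`.

Here the theorem is stated for an arbitrary extension `N ⊇ M` of `F` in an algebraic closure `Ω`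
instead of `M`, and for all extensions `L` of `F` in `M`, also infinite ones.

Proof.  A section of `Gal(N/L) → G_k` is a section of `Gal(N/F) → G_k` whose values fix `L`.  By
`MP_c385f6_ag.TwistsByRotations` (library `Pool.Agent.R925.L`) its image in `Gal(M/F)` is contained in
the decomposition group of exactly one `W` above a point with `x = 0`, `x = ∞` or `y = 0`, and this point
is a rational point with `x = 0` or `x = ∞`.  The residue field of `W` is `k̄`.  Let `z ∈ L ∩ W` be
congruent to `c ∈ k̄` modulo the maximal ideal of `W`.  As `s(σ)` fixes `z` and `W ∩ M`, also `σ(c)` is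
congruent to `z`, and `σ(c) = c`.  So `c ∈ k`.  For the last statement let `s, s'` have the same `W`, and
let `E/k̄ F` be one of the finite unramified `ℓ`-extensions that generate `M`.  Then `τ = s'(σ)⁻¹ s(σ)`
fixes `k̄ F` and maps `E` and `W ∩ E` onto themselves.  Every `z ∈ E` is of the form `t (c + ε)` with
`t ∈ k̄ F`, `c ∈ k̄` and `ε` in the maximal ideal of `W`, whence `|τ z - z| < |z|` if `z ≠ 0`.  If
`τ^n z = z`, this for the element `n z - ∑_{i < n} τ^i z`, whose trace is zero, shows that this element
is zero, and `τ z = z`.  (These arguments are those of `MP_c385f6_ag.EtaleCoverings`, library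
`Pool.Agent.V11235.SL`.)
-/

set_option autoImplicit false

open Polynomial

namespace Pool.Agent.Results.MP_c385f6_ag.CoveringsOfTwistsByRotations

section definitions

variable (ℓ : ℕ) (k F Ω : Type) [Field k] [Field F] [Field Ω] [Algebra k F] [Algebra F Ω]
  [Algebra k Ω]

/-- The inertia group of the valuation ring `W` of `Ω`, as a subgroup of `Gal(Ω/F)`: the
automorphisms of `Ω` over `F` that map `W` onto itself and act as the identity on its residue
field. -/
noncomputable def inertia (W : ValuationSubring Ω) : Subgroup (Ω ≃ₐ[F] Ω) :=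
  (W.inertiaSubgroup F).map (W.decompositionSubgroup F).subtype

/-- `F_U`, for a set `U` of valuation rings of `F`: the elements of `Ω` fixed by the inertia groups
of all valuation rings `W` of `Ω` with `W ∩ F ∈ U`.  If `Ω` is an algebraic closure of a field `F`
of characteristic zero, this is the maximal extension of `F` in `Ω` unramified over `U`. -/
noncomputable def unramified (U : Set (ValuationSubring F)) : IntermediateField F Ω :=
  ⨅ W : {W : ValuationSubring Ω // W.comap (algebraMap F Ω) ∈ U},
    IntermediateField.fixedField (inertia F Ω W.1)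

/-- `k̄ F`, the compositum of `F` and of the algebraic closure of `k` in `Ω`. -/
noncomputable def geomField : IntermediateField F Ω :=
  IntermediateField.adjoin F (algebraicClosure k Ω : Set Ω)

/-- The algebraic extension `L` of `K` in `Ω` is unramified at all valuation rings of `Ω` that
contain `k`: every nonzero element of `L` has the same valuation as an element of `K`.  (If `K` is
a function field of one variable over the algebraic closure of `k` and `k` has characteristic zero,
then this says that `L/K` is unramified over all points of the smooth projective curve.) -/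
def Unramified {k K Ω : Type} [Field k] [Field K] [Field Ω] [Algebra k Ω] [Algebra K Ω]
    (L : IntermediateField K Ω) : Prop :=
  ∀ W : ValuationSubring Ω, (∀ c : k, algebraMap k Ω c ∈ W) → ∀ z ∈ L, z ≠ 0 →
    ∃ t : K, t ≠ 0 ∧ z / algebraMap K Ω t ∈ W ∧ (z / algebraMap K Ω t)⁻¹ ∈ W

/-- `L/K` is a finite Galois extension whose degree is a power of `ℓ`. -/
def FiniteProEll (ℓ : ℕ) {K Ω : Type} [Field K] [Field Ω] [Algebra K Ω]
    (L : IntermediateField K Ω) : Prop :=
  FiniteDimensional K L ∧ IsGalois K L ∧ ∃ m : ℕ, Module.finrank K L = ℓ ^ m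

/-- The maximal unramified pro-`ℓ` extension of `K` in `Ω`: the compositum of the finite Galois
extensions of `K` whose degree is a power of `ℓ` and which are unramified. -/
noncomputable def maxProEll (ℓ : ℕ) (k K Ω : Type) [Field k] [Field K] [Field Ω] [Algebra k Ω]
    [Algebra K Ω] : IntermediateField K Ω :=
  ⨆ L : {L : IntermediateField K Ω // FiniteProEll ℓ L ∧ Unramified (k := k) L}, L.1

/-- `M`, the maximal unramified pro-`ℓ` extension of `k̄ F` in `Ω`, as an extension of `F`. -/
noncomputable def proEllField : IntermediateField F Ω :=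
  (maxProEll ℓ k (geomField k F Ω) Ω).restrictScalars F

/-- The map `τ : M → M` acts as `σ : K → K` on the elements that the fields `K` and `M` have in
common when they are regarded as subfields of `Ω` through `i` and `j`. -/
def ActsAs {K M Ω : Type} [Field K] [Field M] [Field Ω] (i : K →+* Ω) (j : M →+* Ω) (σ : K → K)
    (τ : M → M) : Prop :=
  ∀ c z, j z = i c → j (τ z) = i (σ c)

/-- Let `k ⊆ K ⊆ Ω` and `F ⊆ N ⊆ Ω` be fields.  A splitting of `Gal(N/F) → Gal(K/k)`: a continuous
homomorphism `s` from `Gal(K/k)` to `Gal(N/F)` such that `s(σ)` acts as `σ` on the elements of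
`K ∩ N`. -/
structure Splitting (K N : Type) [Field K] [Field N] [Algebra k K] [Algebra F N] [Algebra K Ω]
    [Algebra N Ω] where
  /-- the homomorphism `Gal(K/k) → Gal(N/F)` -/
  toHom : (K ≃ₐ[k] K) →* (N ≃ₐ[F] N)
  cont : Continuous toHom
  compat : ∀ σ : K ≃ₐ[k] K, ActsAs (algebraMap K Ω) (algebraMap N Ω) σ (toHom σ)

end definitions

section places

/-- The valuation ring `W` of `N` contains `k`, and the function `t ∈ F` is in its maximal ideal. -/
def ZeroAt (k : Type) {F N : Type} [Field k] [Field F] [Field N] [Algebra k F] [Algebra F N]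
    (W : ValuationSubring N) (t : F) : Prop :=
  (∀ c : k, algebraMap F N (algebraMap k F c) ∈ W) ∧ algebraMap F N t ∈ W.nonunits

/-- The residue field of `W ∩ F` is `k`. -/
def RationalResidue (k F : Type) {N : Type} [Field k] [Field F] [Field N] [Algebra k F]
    [Algebra F N] (W : ValuationSubring N) : Prop :=
  ∀ z : F, algebraMap F N z ∈ W → ∃ c : k, algebraMap F N (z - algebraMap k F c) ∈ W.nonunits

/-- The image of `s : Gal(K/k) → Gal(N/F)` in `Gal(M/F)`, where `M ⊆ N ⊆ Ω`, is contained in the
decomposition group of the valuation ring `W ∩ M`. -/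
def InDecomposition {k F Ω K N : Type} [Field k] [Field F] [Field Ω] [Field K] [Field N]
    [Algebra k K] [Algebra F N] [Algebra F Ω] [Algebra K Ω] [Algebra N Ω]
    (s : Splitting k F Ω K N) (M : IntermediateField F Ω) (W : ValuationSubring N) : Prop :=
  ∀ σ, ∀ z : N, algebraMap N Ω z ∈ M → (s.toHom σ z ∈ W ↔ z ∈ W)

/-- The splittings `s` and `s'` of `Gal(N/F) → Gal(K/k)` agree on `M`. -/
def AgreeOn {k F Ω K N : Type} [Field k] [Field F] [Field Ω] [Field K] [Field N]
    [Algebra k K] [Algebra F N] [Algebra F Ω] [Algebra K Ω] [Algebra N Ω]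
    (M : IntermediateField F Ω) (s s' : Splitting k F Ω K N) : Prop :=
  ∀ σ, ∀ z : N, algebraMap N Ω z ∈ M → s.toHom σ z = s'.toHom σ z

/-- The function `t ∈ F` has a zero or a pole at the valuation ring `W` of `N` over `k`. -/
def ZeroOrPole (k : Type) {F N : Type} [Field k] [Field F] [Field N] [Algebra k F] [Algebra F N]
    (W : ValuationSubring N) (t : F) : Prop :=
  ZeroAt k W t ∨ ZeroAt k W t⁻¹

/-- Let the splitting `s` of `Gal(N/F) → Gal(K/k)` have its image in `Gal(N/L)`, `L ⊆ M ⊆ N`.  It
induces on `M` the section of exactly one point above a point with `x = 0` or `x = ∞`, and this is a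
`k`-rational point of the curve with function field `L`: there is a valuation ring `W` of `N` above a
point with `x = 0` or `x = ∞`, such that the residue fields of `W ∩ F` and of `W ∩ L` are `k`, and such
that the image of `s` in `Gal(M/L)` is contained in the decomposition group of `W ∩ M`; all splittings
with the last property induce the same section on `M`; and `W ∩ M` is the only such valuation ring above
a point with `x = 0` or `x = ∞` or above a zero of the function `h`. -/
def FromOneRationalPoint {k F Ω K N : Type} [Field k] [Field F] [Field Ω] [Field K] [Field N]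
    [Algebra k F] [Algebra k K] [Algebra F N] [Algebra F Ω] [Algebra K Ω] [Algebra N Ω]
    (h x : F) (s : Splitting k F Ω K N) (M L : IntermediateField F Ω) : Prop :=
  ∃ W : ValuationSubring N, ZeroOrPole k W x ∧ RationalResidue k F W ∧
    (∀ z : N, algebraMap N Ω z ∈ L → z ∈ W →
      ∃ c : k, z - algebraMap F N (algebraMap k F c) ∈ W.nonunits) ∧
    InDecomposition s M W ∧
    (∀ s' : Splitting k F Ω K N, InDecomposition s' M W → AgreeOn M s s') ∧
    ∀ W' : ValuationSubring N, ZeroOrPole k W' x ∨ ZeroAt k W' h → InDecomposition s M W' →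
      ∀ z : N, algebraMap N Ω z ∈ M → (z ∈ W' ↔ z ∈ W)

/-- Let `L ⊆ M ⊆ N`.  Every section of `Gal(N/L) → Gal(K/k)`, that is, every splitting `s` of
`Gal(N/F) → Gal(K/k)` all of whose values are the identity on `L`, induces on `M` the section of exactly
one point above a point with `x = 0` or `x = ∞`, and this is a `k`-rational point of the curve with
function field `L` (`FromOneRationalPoint`). -/
def AllFromOneRationalPoint {k F Ω : Type} (K N : Type) [Field k] [Field F] [Field Ω] [Field K]
    [Field N] [Algebra k F] [Algebra k K] [Algebra F N] [Algebra F Ω] [Algebra K Ω] [Algebra N Ω]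
    (h x : F) (M L : IntermediateField F Ω) : Prop :=
  ∀ s : Splitting k F Ω K N, (∀ σ, ∀ z : N, algebraMap N Ω z ∈ L → s.toHom σ z = z) →
    FromOneRationalPoint h x s M L

end places

section curves

/-- `F = k(x, y)` is the function field of the curve `d y^ℓ = g(a x^m)`. -/
def IsFunctionField {k F : Type} [Field k] [Field F] [Algebra k F] (ℓ m : ℕ) (g : k[X]) (a d : k)
    (x y : F) : Prop :=
  Transcendental k x ∧ algebraMap k F d * y ^ ℓ = aeval (algebraMap k F a * x ^ m) g ∧
    IntermediateField.adjoin k {x, y} = (⊤ : IntermediateField k F)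

/-- Let `F = k(x, y)` be the function field of the curve `C : d y^ℓ = g(a x^m)`, let `Ω` be an
algebraic closure of `F` and `M = proEllField ℓ k F Ω`.  Let `L ⊆ M` be any extension of `F`; if it is
finite over `F` and `k` is algebraically closed in `L`, it is the function field of a finite étale
covering `Y` of `C`, geometrically connected, and `Gal(M/L)` is the geometrically pro-`ℓ` fundamental
group of `Y`.  For all extensions `N ⊇ M` of `F` in `Ω`, for instance `N = M` or the field of `π₁(Y)`,
every section of `Gal(N/L) → G_k`, that is, every continuous homomorphism from `G_k` to the group of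
automorphisms of `N` over `F` whose values are the identity on `L` and act as they should on the
algebraic closure of `k`, induces on `M` the section of exactly one point of `Y` above a point of `C` with
`x = 0` or `x = ∞`, and this is a `k`-rational point of `Y`; the section on `M` is determined by `W`. -/
def SectionsOfCoverings (k : Type) [Field k] (ℓ m : ℕ) (g : k[X]) (a d : k) : Prop :=
  ∀ (F Ω : Type) [Field F] [Field Ω] [Algebra k F] [Algebra F Ω] [Algebra k Ω]
    [IsScalarTower k F Ω] [IsAlgClosure F Ω] (x y : F), IsFunctionField ℓ m g a d x y →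
    ∀ L N : IntermediateField F Ω, L ≤ proEllField ℓ k F Ω → proEllField ℓ k F Ω ≤ N →
      AllFromOneRationalPoint (k := k) (algebraicClosure k Ω) N (aeval (algebraMap k F a * x ^ m) g) x
        (proEllField ℓ k F Ω) L

/-- The leading coefficient of `g` is invertible, the reduction of `g(x^m)` is separable, and the
degree of `g(x^m)` is at least 3. -/
def GoodPolynomial {A : Type} [CommRing A] [IsLocalRing A] (m : ℕ) (g : A[X]) : Prop :=
  IsUnit g.leadingCoeff ∧ ((expand A m g).map (IsLocalRing.residue A)).Separable ∧
    3 ≤ (expand A m g).natDegree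

/-- The valuation of `a` is not divisible by `m`: `a = t ϖ^n` with `t` invertible in `A`, `ϖ` a
uniformiser and `n` not divisible by `m`. -/
def ValuationNotDivisible (A : Type) {k : Type} [CommRing A] [Field k] [Algebra A k] (m : ℕ) (a : k) :
    Prop :=
  ∃ (ϖ t : A) (n : ℤ), Irreducible ϖ ∧ IsUnit t ∧ ¬ (m : ℤ) ∣ n ∧
    a = algebraMap A k t * algebraMap A k ϖ ^ n

end curves

lemma iSup_congr_prop {α : Type} [CompleteLattice α] {P Q : α → Prop} (h : ∀ L, P L ↔ Q L) :
    (⨆ L : {L // P L}, L.1) = ⨆ L : {L // Q L}, L.1 := by
  have h1 : P = Q := funext fun L => propext (h L)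
  subst h1
  rfl

lemma proEll_eq (ℓ : ℕ) (k F Ω : Type) [Field k] [Field F] [Field Ω] [Algebra k F] [Algebra F Ω]
    [Algebra k Ω] : proEllField ℓ k F Ω = Pool.Agent.Y157.PS.geomPro ℓ k F Ω := by
  unfold proEllField Pool.Agent.Y157.PS.geomPro maxProEll Pool.Agent.Y157.PS.maxPro
  congr 1
  refine iSup_congr_prop fun L => ?_
  constructor
  · rintro ⟨⟨h1, h2, h3⟩, h4⟩
    refine ⟨⟨h1, h2, h3⟩, fun W hW z hz hz0 => ?_⟩
    obtain ⟨t, ht, h5, h6⟩ := h4 W hW z hz hz0
    exact ⟨t, ht, div_ne_zero hz0 ((_root_.map_ne_zero _).2 ht), h5, h6⟩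
  · rintro ⟨⟨h1, h2, h3⟩, h4⟩
    refine ⟨⟨h1, h2, h3⟩, fun W hW z hz hz0 => ?_⟩
    obtain ⟨t, ht, -, h5, h6⟩ := h4 W hW z hz hz0
    exact ⟨t, ht, h5, h6⟩

section proof

variable {ℓ : ℕ} {k F Ω : Type} [Field k] [CharZero k] [Field F] [Field Ω] [Algebra k F]
  [Algebra F Ω] [Algebra k Ω] [IsScalarTower k F Ω] [IsAlgClosure F Ω]

omit [CharZero k] [Algebra k F] [IsScalarTower k F Ω] [IsAlgClosure F Ω] in
lemma mem_proEll (c : algebraicClosure k Ω) : (c : Ω) ∈ proEllField ℓ k F Ω := by
  have h1 : (c : Ω) ∈ geomField k F Ω := IntermediateField.subset_adjoin _ _ c.2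
  exact (maxProEll ℓ k (geomField k F Ω) Ω).algebraMap_mem ⟨(c : Ω), h1⟩

/-- the algebraic closure of `k` inside `N` -/
def iota (N : IntermediateField F Ω) (hN : proEllField ℓ k F Ω ≤ N) : algebraicClosure k Ω →+* N where
  toFun c := ⟨(c : Ω), hN (mem_proEll c)⟩
  map_one' := Subtype.ext rfl
  map_mul' := fun _ _ => Subtype.ext rfl
  map_zero' := Subtype.ext rfl
  map_add' := fun _ _ => Subtype.ext rfl

omit [CharZero k] in
lemma iota_mem (N : IntermediateField F Ω) (hN : proEllField ℓ k F Ω ≤ N) (W : ValuationSubring N)
    (h1 : ∀ c : k, algebraMap F N (algebraMap k F c) ∈ W) (c : algebraicClosure k Ω) :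
    iota N hN c ∈ W := by
  have hcl : IsAlgClosed Ω := IsAlgClosure.isAlgClosed F
  have hι : ∀ c : k, iota N hN (algebraMap k (algebraicClosure k Ω) c) =
      algebraMap F N (algebraMap k F c) := by
    intro c
    apply Subtype.ext
    change algebraMap k Ω c = algebraMap F Ω (algebraMap k F c)
    exact IsScalarTower.algebraMap_apply k F Ω c
  have hacl : IsAlgClosure k (algebraicClosure k Ω) := inferInstance
  have hc : IsIntegral k c := (hacl.isAlgebraic.isAlgebraic c).isIntegral
  obtain ⟨p, hp, hpc⟩ := hc
  let g : k →+* W :=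
    { toFun := fun a => ⟨algebraMap F N (algebraMap k F a), h1 a⟩
      map_one' := Subtype.ext (by simp)
      map_mul' := fun a b => Subtype.ext (by simp)
      map_zero' := Subtype.ext (by simp)
      map_add' := fun a b => Subtype.ext (by simp) }
  have hint : IsIntegral W (iota N hN c) := by
    refine ⟨p.map g, hp.map g, ?_⟩
    rw [eval₂_map]
    have h2 : (algebraMap W N).comp g = (iota N hN).comp (algebraMap k (algebraicClosure k Ω)) := by
      ext1 a
      exact (hι a).symm
    rw [h2, ← hom_eval₂, hpc, map_zero]
  obtain ⟨w, hw⟩ := (IsIntegrallyClosed.isIntegral_iff (R := W)).1 hint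
  rw [← hw]
  exact w.2

omit [CharZero k] in
lemma exists_res (N : IntermediateField F Ω) (hN : proEllField ℓ k F Ω ≤ N)
    (W : ValuationSubring N) (h1 : ∀ c : k, algebraMap F N (algebraMap k F c) ∈ W)
    (h3 : RationalResidue k F W) (z : N) (hz : z ∈ W) : ∃ c, z - iota N hN c ∈ W.nonunits := by
  have hcl : IsAlgClosed Ω := IsAlgClosure.isAlgClosed F
  have halg : Algebra.IsAlgebraic F Ω := IsAlgClosure.isAlgebraic
  have hι : ∀ c : k, iota N hN (algebraMap k (algebraicClosure k Ω) c) =
      algebraMap F N (algebraMap k F c) := by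
    intro c
    apply Subtype.ext
    change algebraMap k Ω c = algebraMap F Ω (algebraMap k F c)
    exact IsScalarTower.algebraMap_apply k F Ω c
  have hacl : IsAlgClosure k (algebraicClosure k Ω) := inferInstance
  have hclK : IsAlgClosed (algebraicClosure k Ω) := hacl.isAlgClosed
  have hzalg : IsAlgebraic F z := by
    have h2 : IsAlgebraic F (z : Ω) := halg.isAlgebraic _
    exact (isAlgebraic_algebraMap_iff (R := F) (S := N) (A := Ω) (algebraMap N Ω).injective).1 h2
  exact Pool.Agent.V11235.SL.residue_alg (iota N hN) hι W (iota_mem N hN W h1) h3 z hzalg hz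

/-- there is only one section for every point -/
lemma unique_section (N : IntermediateField F Ω) (hN : proEllField ℓ k F Ω ≤ N)
    (s s' : Splitting k F Ω (algebraicClosure k Ω) N) (W : ValuationSubring N)
    (h1 : ∀ c : k, algebraMap F N (algebraMap k F c) ∈ W)
    (h3 : RationalResidue k F W) (h4 : InDecomposition s (proEllField ℓ k F Ω) W)
    (h4' : InDecomposition s' (proEllField ℓ k F Ω) W) : AgreeOn (proEllField ℓ k F Ω) s s' := by
  have hcl : IsAlgClosed Ω := IsAlgClosure.isAlgClosed F
  have halg : Algebra.IsAlgebraic F Ω := IsAlgClosure.isAlgebraic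
  have hc0 : CharZero Ω := charZero_of_injective_algebraMap (algebraMap k Ω).injective
  intro σ
  let τ : N ≃ₐ[F] N := (s.toHom σ).trans (s'.toHom σ).symm
  have hτ : ∀ z : N, s'.toHom σ (τ z) = s.toHom σ z := fun z =>
    (s'.toHom σ).apply_symm_apply _
  have hfixc : ∀ c : algebraicClosure k Ω, τ (iota N hN c) = iota N hN c := by
    intro c
    apply (s'.toHom σ).injective
    rw [hτ]
    apply Subtype.ext
    exact (s.compat σ c (iota N hN c) rfl).trans (s'.compat σ c (iota N hN c) rfl).symm
  have hgeo : geomField k F Ω ≤ Pool.Agent.V11235.SL.fixF N τ := by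
    refine IntermediateField.adjoin_le_iff.2 fun c hc => ?_
    exact ⟨hN (mem_proEll ⟨c, hc⟩), hfixc ⟨c, hc⟩⟩
  have hL : ∀ L : {L : IntermediateField (geomField k F Ω) Ω // FiniteProEll ℓ L ∧
      Unramified (k := k) L}, L.1 ≤ IntermediateField.extendScalars hgeo := by
    rintro ⟨L, ⟨hfin, hgal, hcard⟩, hun⟩
    intro z hz
    change z ∈ L at hz
    have hLM : ∀ z ∈ L, z ∈ proEllField ℓ k F Ω := by
      intro z hz
      have h5 : L ≤ maxProEll ℓ k (geomField k F Ω) Ω := by
        refine le_iSup (fun L : {L : IntermediateField (geomField k F Ω) Ω // FiniteProEll ℓ L ∧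
          Unramified (k := k) L} => L.1) ⟨L, ⟨hfin, hgal, hcard⟩, hun⟩
      exact h5 hz
    have hLN : ∀ z ∈ L, z ∈ N := fun z hz => hN (hLM z hz)
    obtain ⟨V, hV⟩ := Pool.Agent.Y157.PS.a_extv N Ω W
    have hVW : ∀ w : N, (w : Ω) ∈ V ↔ w ∈ W := by
      intro w
      rw [← hV]
      rfl
    have hkV : ∀ c : k, algebraMap k Ω c ∈ V := by
      intro c
      have h5 := (hVW (algebraMap F N (algebraMap k F c))).2 (h1 c)
      rw [IsScalarTower.algebraMap_apply k F Ω c]
      exact h5
    refine ⟨hLN z hz, ?_⟩
    refine Pool.Agent.V11235.SL.triv (geomField k F Ω) N L hLN W (iota N hN) (iota_mem N hN W h1)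
      (fun c => IntermediateField.subset_adjoin _ _ c.2) τ (fun w hw => (hgeo hw).2)
      (exists_res N hN W h1 h3) ?_ ?_ ⟨z, hLN z hz⟩ hz
    · intro w hw hw0
      have hw0' : (w : Ω) ≠ 0 := fun h => hw0 (Subtype.ext h)
      obtain ⟨t, ht0, h5, h6⟩ := hun V hkV w hw hw0'
      refine ⟨⟨(t : Ω), hLN _ (L.algebraMap_mem t)⟩, t.2, fun h => ht0 (Subtype.ext ?_),
        (hVW _).1 h5, (hVW _).1 h6⟩
      exact congrArg (fun r : N => (r : Ω)) h
    · intro w hw hw'
      rw [← h4 σ w (hLM _ hw), ← h4' σ (τ w) (hLM _ hw'), hτ]
  intro z hz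
  have h5 : (z : Ω) ∈ IntermediateField.extendScalars hgeo := (iSup_le hL) hz
  obtain ⟨h6, h7⟩ := (IntermediateField.mem_extendScalars hgeo).1 h5
  have h8 : τ z = z := h7
  rw [← hτ z, h8]

lemma rational_residue (L N : IntermediateField F Ω) (hL : L ≤ proEllField ℓ k F Ω)
    (hN : proEllField ℓ k F Ω ≤ N) (s : Splitting k F Ω (algebraicClosure k Ω) N)
    (hs : ∀ σ, ∀ z : N, (z : Ω) ∈ L → s.toHom σ z = z) (W : ValuationSubring N)
    (h1 : ∀ c : k, algebraMap F N (algebraMap k F c) ∈ W)
    (h3 : RationalResidue k F W) (h4 : InDecomposition s (proEllField ℓ k F Ω) W) (z : N)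
    (hzL : (z : Ω) ∈ L) (hz : z ∈ W) :
    ∃ c : k, z - algebraMap F N (algebraMap k F c) ∈ W.nonunits := by
  have hcl : IsAlgClosed Ω := IsAlgClosure.isAlgClosed F
  have halg : Algebra.IsAlgebraic F Ω := IsAlgClosure.isAlgebraic
  have hι : ∀ c : k, iota N hN (algebraMap k (algebraicClosure k Ω) c) =
      algebraMap F N (algebraMap k F c) := by
    intro c
    apply Subtype.ext
    change algebraMap k Ω c = algebraMap F Ω (algebraMap k F c)
    exact IsScalarTower.algebraMap_apply k F Ω c
  have hacl : IsAlgClosure k (algebraicClosure k Ω) := inferInstance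
  have hclK : IsAlgClosed (algebraicClosure k Ω) := hacl.isAlgClosed
  -- the algebraic closure is in `W`
  have hK : ∀ c : algebraicClosure k Ω, iota N hN c ∈ W := by
    intro c
    have hc : IsIntegral k c := (hacl.isAlgebraic.isAlgebraic c).isIntegral
    obtain ⟨p, hp, hpc⟩ := hc
    let g : k →+* W :=
      { toFun := fun a => ⟨algebraMap F N (algebraMap k F a), h1 a⟩
        map_one' := Subtype.ext (by simp)
        map_mul' := fun a b => Subtype.ext (by simp)
        map_zero' := Subtype.ext (by simp)
        map_add' := fun a b => Subtype.ext (by simp) }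
    have hint : IsIntegral W (iota N hN c) := by
      refine ⟨p.map g, hp.map g, ?_⟩
      rw [eval₂_map]
      have h2 : (algebraMap W N).comp g = (iota N hN).comp (algebraMap k (algebraicClosure k Ω)) := by
        ext1 a
        exact (hι a).symm
      rw [h2, ← hom_eval₂, hpc, map_zero]
    obtain ⟨w, hw⟩ := (IsIntegrallyClosed.isIntegral_iff (R := W)).1 hint
    rw [← hw]
    exact w.2
  have hzalg : IsAlgebraic F z := by
    have h2 : IsAlgebraic F (z : Ω) := halg.isAlgebraic _
    exact (isAlgebraic_algebraMap_iff (R := F) (S := N) (A := Ω) (algebraMap N Ω).injective).1 h2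
  obtain ⟨c, hc⟩ := Pool.Agent.V11235.SL.residue_alg (iota N hN) hι W hK h3 z hzalg hz
  have hunit : ∀ r : algebraicClosure k Ω, r ≠ 0 → W.valuation (iota N hN r) = 1 := by
    intro r hr
    have h1 := (ValuationSubring.valuation_le_one_iff W _).2 (hK r)
    have h2 := (ValuationSubring.valuation_le_one_iff W _).2 (hK r⁻¹)
    rw [map_inv₀, map_inv₀] at h2
    have h3 : W.valuation (iota N hN r) ≠ 0 :=
      (Valuation.ne_zero_iff _).2 ((_root_.map_ne_zero _).2 hr)
    refine le_antisymm h1 ?_
    exact (inv_le_one₀ (zero_lt_iff.2 h3)).1 h2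
  -- `c` is fixed
  have hfix : ∀ σ : algebraicClosure k Ω ≃ₐ[k] algebraicClosure k Ω, σ c = c := by
    intro σ
    have hw : ((z - iota N hN c : N) : Ω) ∈ proEllField ℓ k F Ω := by
      refine sub_mem (hL hzL) (mem_proEll c)
    have h5 : s.toHom σ (z - iota N hN c) ∈ W.nonunits := by
      rw [ValuationSubring.mem_nonunits_iff_or] at hc ⊢
      rcases hc with h | h
      · left
        rw [h, map_zero]
      · right
        rw [← map_inv₀]
        intro h6
        apply h
        refine (h4 σ _ ?_).1 h6
        exact inv_mem hw
    have h6 : s.toHom σ (iota N hN c) = iota N hN (σ c) := by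
      apply Subtype.ext
      exact s.compat σ c (iota N hN c) rfl
    rw [map_sub, hs σ z hzL, h6] at h5
    by_contra hne
    have h7 : W.valuation (iota N hN (σ c - c)) = 1 := hunit _ (sub_ne_zero.2 hne)
    have h8 : iota N hN (σ c - c) = (z - iota N hN c) - (z - iota N hN (σ c)) := by
      rw [map_sub]
      ring
    rw [h8] at h7
    have h9 := Valuation.map_sub W.valuation (z - iota N hN c) (z - iota N hN (σ c))
    rw [h7] at h9
    exact absurd h9 (not_le.2 (max_lt ((ValuationSubring.mem_nonunits_iff W).1 hc)
      ((ValuationSubring.mem_nonunits_iff W).1 h5)))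
  have hgal : IsGalois k (algebraicClosure k Ω) := by
    have hn : Normal k (algebraicClosure k Ω) := IsAlgClosure.normal k _
    exact ⟨⟩
  obtain ⟨a, ha⟩ := IntermediateField.mem_bot.1 ((InfiniteGalois.mem_bot_iff_fixed c).2 hfix)
  refine ⟨a, ?_⟩
  rw [← hι, ha]
  exact hc

end proof

/-- Let `A` be a complete discrete valuation ring with finite residue field and with field of
fractions `k` of characteristic zero, `ℓ` a prime number invertible in `A`, `m = ℓ^j` with `j ≥ 1`,
`g ∈ A[x]` a polynomial with invertible leading coefficient such that `g(x^m)` has separable reduction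
and degree at least 3, `a ∈ k` an element whose valuation is not divisible by `m`, and `d ∈ k` not
zero.  Let `L` be an extension of the function field `F` of the curve `C : d y^ℓ = g(a x^m)` that is
contained in the field `M` of the geometrically pro-`ℓ` fundamental group of `C`, for instance the
function field of a geometrically connected finite étale covering `Y` of `C` with a geometric monodromy
group of `ℓ`-power order.  Then every section of `Gal(N/L) → G_k`, `N ⊇ M`, for instance of the
fundamental group of `Y`, of its open subcurves, and of the geometrically pro-`ℓ` fundamental group of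
`Y`, induces on `M` the section of exactly one point of `Y` above a point of `C` with `x = 0` or
`x = ∞`, and this is a `k`-rational point of `Y`; two sections with the same prolongation `W` of such a
point to `M` agree on `M`. -/
theorem result (A k : Type) [CommRing A] [IsDomain A] [IsDiscreteValuationRing A]
    [IsAdicComplete (IsLocalRing.maximalIdeal A) A] [Finite (IsLocalRing.ResidueField A)]
    [Field k] [CharZero k] [Algebra A k] [IsFractionRing A k] (ℓ : ℕ) [Fact ℓ.Prime] (j : ℕ)
    (hj : 1 ≤ j) (g : A[X]) (a d : k) (hℓ : IsUnit (ℓ : A)) (hg : GoodPolynomial (ℓ ^ j) g)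
    (ha : ValuationNotDivisible A (ℓ ^ j) a) (hd : d ≠ 0) :
    SectionsOfCoverings k ℓ (ℓ ^ j) (g.map (algebraMap A k)) a d := by
  obtain ⟨hlc, hs, h3⟩ := hg
  obtain ⟨ϖ, t, n, hϖ, ht, hn, rfl⟩ := ha
  intro F Ω _ _ _ _ _ _ _ x y hxyF L N hL hN s hsL
  obtain ⟨hx, hxy, hF⟩ := hxyF
  have hcl : IsAlgClosed Ω := IsAlgClosure.isAlgClosed F
  have halg : Algebra.IsAlgebraic F Ω := IsAlgClosure.isAlgebraic
  have hN' := hN
  rw [proEll_eq] at hN'
  obtain ⟨W, ⟨⟨h1, h2, h3'⟩, h4⟩, hun⟩ :=
    Pool.Agent.R925.L.padicRM hℓ hj g hlc hs h3 ϖ hϖ _ d n hn t ht rfl hd x y hx hxy hF N hN'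
      s.toHom s.cont (fun σ c z hz => s.compat σ c z hz)
  have h4' : InDecomposition s (proEllField ℓ k F Ω) W := by
    rw [proEll_eq]
    exact h4
  refine ⟨W, h2.imp (fun h => ⟨h1, h⟩) (fun h => ⟨h1, h⟩), h3', ?_, h4',
    fun s' hs' => unique_section N hN s s' W h1 h3' h4' hs', ?_⟩
  · intro z hzL hz
    exact rational_residue L N hL hN s hsL W h1 h3' h4' z hzL hz
  · rw [proEll_eq]
    intro W' b1 b2
    rcases b1 with (b1 | b1) | b1
    · exact hun W' b1.1 (Or.inl b1.2) b2
    · exact hun W' b1.1 (Or.inr (Or.inl b1.2)) b2
    · exact hun W' b1.1 (Or.inr (Or.inr b1.2)) b2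

end Pool.Agent.Results.MP_c385f6_ag.CoveringsOfTwistsByRotations
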