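import Pool.Agent.N680.DV.Main
import Pool.Agent.Results.MP_c385f6_ag.ProEllSections
import Pool.Agent.Results.MP_c385f6_ag.TwistsByRotations

/-!
# The p-adic section conjecture for the varieties which dominate superelliptic curves

Let `k` be a finite extension of `ℚ_p`, or any complete discretely valued field of characteristic zero with finite residue
field, `A` its valuation ring and `ℓ ≠ p` a prime number. Let `f ∈ A[T]` be a polynomial with invertible leading coefficient
and separable reduction, without roots in `k`, of a degree `n ≥ 3` divisible by `ℓ`, and let `d ∈ k` have a valuation which is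
not divisible by `ℓ`. Let `F(P, Q) = Q ^ n f(P / Q)` be the binary form of `f`.

**Theorem.** Let `X` be a smooth geometrically connected variety over `k`, of ANY dimension (for instance a curve), and let
`P, Q, y` be ANY rational functions on `X` such that `P / Q` is not constant and

  `d y ^ ℓ = F(P, Q)`.

Then the map from `π₁(X)` to the absolute Galois group of `k` has no sections. The same is true if

  `d y ^ ℓ = G(a P ^ m, Q ^ m)`,   `m = ℓ ^ j`, `j ≥ 1`,

where `a ∈ k` has a valuation not divisible by `m`, `G` is the binary form of a polynomial `g ∈ A[T]` with invertible leading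
coefficient for which `g(T ^ m)` has a separable reduction and degree at least 3, `d ∈ k` is not zero, and neither `g(0) / d` nor
`lc(g) a ^ (deg g) / d` is an `ℓ`-th power in `k`.

So all the curves `X` of this kind, for example the curves `d y ^ ℓ = F(P(x), Q(x))` for arbitrary polynomials `P`, `Q` over `k`,
and all their coverings, also ramified ones, satisfy the `p`-adic section conjecture: they have neither rational points nor
sections. There is no condition on their reduction. For every curve `Y` over `k` and every nonconstant rational function `φ`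
on `Y`, this applies to the cyclic covering `d y ^ ℓ = f(φ)` of `Y`. The starting hand-ins `ProEllSections` and
`TwistsByRotations` are the cases `X = C`, `P = x`, `Q = 1`, of curves with good reduction over a ramified extension of `k`, and
`EtaleCoverings` treats étale pro-`ℓ` coverings of `C`.

The theorem holds for much smaller quotients of `π₁(X)`: let `F = k(x, y)` be the function field of the curve `C` in question
(`x = P / Q`) and `M` the maximal unramified pro-`ℓ` extension of `k̄ F`. Then `Gal(N/E) → G_k` has no sections for all extensions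
`N ⊇ M` of the function field `E` of `X`. The fundamental group of `X` is described through valuations: let `E_U` be the maximal
extension of `E` which is unramified over the valuation rings in `U`, for a set `U` of valuation rings of `E` which contain `k`
(for instance the local rings of `X` at its points of codimension one: then `Gal(E_U/E) = π₁(X)` by purity); then `E_U ⊇ M`.

Proof. A continuous section `s` of `Gal(N/E) → G_k` preserves the elements of `N` which are algebraic over `F`, and gives a
section of `Gal(N ∩ F̄ / F) → G_k`, to which the starting theorems apply: it comes from a rational point of `C` with `y = 0` in the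
first case and with `x = 0` or `x = ∞` in the second case. There are no such points. An inertia group of `E` acts on `F̄` through
an inertia group of `F`, so `M ⊆ E_U`.
-/

set_option autoImplicit false

open Polynomial

namespace Pool.Agent.Results.MP_c385f6_ag.DominatingVarieties

open ProEllSections (Splitting unramified proEllField ValuationPrimeTo)

/-- Let `F` be a field over `k` (the function field of a curve `C`), `Ω` an algebraic closure of `F` and
`M = proEllField ℓ k F Ω` the maximal unramified pro-`ℓ` extension of `k̄ F`. For all fields `E ⊇ F` (the function fields of the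
varieties `X` with a dominant rational map to `C`) and all fields `Ω'` which contain `E` and `Ω`:

(1) `M` is contained in the maximal extension `E_U` of `E` in `Ω'` which is unramified over `U`, for all sets `U` of valuation
rings of `E` over `k`;

(2) for all extensions `N` of `E` in `Ω'` which contain `M` there are no splittings of `Gal(N/E) → Gal(k̄/k)`. -/
def NoSectionsAbove (ℓ : ℕ) (k F : Type) [Field k] [Field F] [Algebra k F] : Prop :=
  ∀ (E Ω Ω' : Type) [Field E] [Field Ω] [Field Ω'] [Algebra k E] [Algebra k Ω] [Algebra k Ω'] [Algebra F E]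
    [Algebra F Ω] [Algebra F Ω'] [Algebra E Ω'] [Algebra Ω Ω'] [IsScalarTower k F E] [IsScalarTower k F Ω]
    [IsScalarTower k Ω Ω'] [IsScalarTower F E Ω'] [IsScalarTower F Ω Ω'] [IsAlgClosure F Ω],
    (∀ U : Set (ValuationSubring E), (∀ O ∈ U, ∀ c : k, algebraMap k E c ∈ O) →
      ∀ z ∈ proEllField ℓ k F Ω, algebraMap Ω Ω' z ∈ unramified E Ω' U) ∧
    ∀ N : IntermediateField E Ω', (∀ z ∈ proEllField ℓ k F Ω, algebraMap Ω Ω' z ∈ N) →
      IsEmpty (Splitting k E Ω' (algebraicClosure k Ω') N)

/-- For every algebraic closure `Ω'` of `E` and every set `U` of valuation rings of `E` over `k` there are no splittings of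
`Gal(E_U/E) → Gal(k̄/k)`. -/
def NoSections (k E : Type) [Field k] [Field E] [Algebra k E] : Prop :=
  ∀ (Ω' : Type) [Field Ω'] [Algebra k Ω'] [Algebra E Ω'] [IsScalarTower k E Ω'] [IsAlgClosure E Ω']
    (U : Set (ValuationSubring E)), (∀ O ∈ U, ∀ c : k, algebraMap k E c ∈ O) →
      IsEmpty (Splitting k E Ω' (algebraicClosure k Ω') (unramified E Ω' U))

/-- the first class of curves -/
lemma above_f (k : Type) [Field k] (ℓ : ℕ) (f : k[X]) (d : k)
    (h : ProEllSections.SectionsFromBranchPoints k ℓ f d) (hroot : ∀ e : k, f.eval e ≠ 0)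
    (F : Type) [Field F] [Algebra k F] (x y : F) (hF : ProEllSections.IsFunctionField ℓ f d x y) :
    NoSectionsAbove ℓ k F := by
  intro E Ω Ω' _ _ _ _ _ _ _ _ _ _ _ _ _ _ _ _ _
  obtain ⟨h1, h2⟩ := h F Ω x y hF
  refine ⟨fun U hU z hz => Pool.Agent.N680.DV.mem_unr (proEllField ℓ k F Ω) h1 U hU z hz, fun N hN => ⟨fun s => ?_⟩⟩
  obtain ⟨T, hT, hTc⟩ := Pool.Agent.N680.DV.transfer (k := k) (F := F) (Ω := Ω) N s.toHom s.cont
    (fun σ c z hz => s.compat σ c z hz)
  obtain ⟨W, ⟨e, he, -⟩, -⟩ := h2 (Pool.Agent.N680.DV.pull N) (fun z hz => hN z hz)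
    ⟨T, hT, fun σ c z hz => hTc σ c z hz⟩
  exact hroot e he

/-- the second class of curves -/
lemma above_g (k : Type) [Field k] (ℓ m : ℕ) (hℓ : 0 < ℓ) (hm : ℓ ∣ m) (hm0 : 0 < m) (g : k[X]) (a d : k) (ha : a ≠ 0)
    (hd : d ≠ 0) (h : TwistsByRotations.SectionsFromZeroOrInfinity k ℓ m g a d)
    (h0 : ∀ c : k, d * c ^ ℓ ≠ g.eval 0) (hinf : ∀ c : k, d * c ^ ℓ ≠ g.leadingCoeff * a ^ g.natDegree)
    (F : Type) [Field F] [Algebra k F] (x y : F) (hF : TwistsByRotations.IsFunctionField ℓ m g a d x y) :
    NoSectionsAbove ℓ k F := by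
  intro E Ω Ω' _ _ _ _ _ _ _ _ _ _ _ _ _ _ _ _ _
  obtain ⟨h1, h2⟩ := h F Ω x y hF
  refine ⟨fun U hU z hz => Pool.Agent.N680.DV.mem_unr (proEllField ℓ k F Ω) h1 U hU z hz, fun N hN => ⟨fun s => ?_⟩⟩
  obtain ⟨T, hT, hTc⟩ := Pool.Agent.N680.DV.transfer (k := k) (F := F) (Ω := Ω) N s.toHom s.cont
    (fun σ c z hz => s.compat σ c z hz)
  obtain ⟨W, hx, hres, -⟩ := h2 (Pool.Agent.N680.DV.pull N) (fun z hz => hN z hz)
    ⟨T, hT, fun σ c z hz => hTc σ c z hz⟩
  obtain ⟨hxt, hxy, -⟩ := hF
  have hx0 : x ≠ 0 := fun h => hxt (by rw [h]; exact isAlgebraic_zero)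
  rcases hx with ⟨hk, hx⟩ | ⟨hk, hx⟩
  · have e1 : algebraMap k F d * y ^ ℓ = aeval x (g.comp (C a * X ^ m)) := by
      rw [hxy, aeval_comp]
      congr 1
      rw [map_mul, map_pow, aeval_X, aeval_C]
    obtain ⟨c, hc⟩ := Pool.Agent.N680.DV.residue_power hℓ W hk hres _ x y hx d hd e1
    refine h0 c (hc.trans ?_)
    rw [eval_comp, eval_mul, eval_pow, eval_X, zero_pow hm0.ne', mul_zero]
  · obtain ⟨r, rfl⟩ := hm
    have hX0 : algebraMap k F a * x ^ (ℓ * r) ≠ 0 := mul_ne_zero ((_root_.map_ne_zero _).2 ha) (pow_ne_zero _ hx0)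
    let _ : Invertible (algebraMap k F a * x ^ (ℓ * r)) := invertibleOfNonzero hX0
    have e0 := eval₂_reverse_mul_pow (algebraMap k F) (algebraMap k F a * x ^ (ℓ * r)) g
    rw [invOf_eq_inv] at e0
    have e1 : algebraMap k F d * (y * x⁻¹ ^ (r * g.natDegree)) ^ ℓ =
        aeval x⁻¹ (C (a ^ g.natDegree) * g.reverse.comp (C a⁻¹ * X ^ (ℓ * r))) := by
      have e3 : aeval x⁻¹ (C a⁻¹ * X ^ (ℓ * r) : k[X]) = (algebraMap k F a)⁻¹ * x⁻¹ ^ (ℓ * r) := by
        rw [map_mul, aeval_C, map_pow, aeval_X, map_inv₀]
      have e4 : aeval x⁻¹ (C (a ^ g.natDegree) * g.reverse.comp (C a⁻¹ * X ^ (ℓ * r))) =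
          (algebraMap k F a) ^ g.natDegree * aeval ((algebraMap k F a)⁻¹ * x⁻¹ ^ (ℓ * r)) g.reverse := by
        rw [map_mul, aeval_C, aeval_comp, e3, map_pow]
      rw [e4, mul_pow, ← mul_assoc, hxy, aeval_def, ← e0, ← aeval_def, mul_inv, ← inv_pow, mul_pow, ← pow_mul, ← pow_mul]
      have e2 : x ^ (ℓ * r * g.natDegree) * x⁻¹ ^ (r * g.natDegree * ℓ) = 1 := by
        rw [show r * g.natDegree * ℓ = ℓ * r * g.natDegree by ring, ← mul_pow, mul_inv_cancel₀ hx0, one_pow]
      calc _ = (algebraMap k F a) ^ g.natDegree * aeval ((algebraMap k F a)⁻¹ * x⁻¹ ^ (ℓ * r)) g.reverse *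
            (x ^ (ℓ * r * g.natDegree) * x⁻¹ ^ (r * g.natDegree * ℓ)) := by ring
        _ = _ := by rw [e2, mul_one]
    obtain ⟨c, hc⟩ := Pool.Agent.N680.DV.residue_power hℓ W hk hres _ x⁻¹ _ hx d hd e1
    refine hinf c (hc.trans ?_)
    rw [eval_mul, eval_C, eval_comp, eval_mul, eval_pow, eval_X, zero_pow hm0.ne', mul_zero,
      ← coeff_zero_eq_eval_zero, coeff_zero_reverse, mul_comm]

/-- from a subfield to the whole field -/
lemma descend (k E : Type) [Field k] [Field E] [Algebra k E] (ℓ : ℕ) (F : IntermediateField k E)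
    (h : NoSectionsAbove ℓ k F) : NoSections k E := by
  intro Ω' _ _ _ _ _ U hU
  have hcl : IsAlgClosed Ω' := IsAlgClosure.isAlgClosed E
  have : IsScalarTower k (algebraicClosure F Ω') Ω' := IsScalarTower.of_algebraMap_eq fun c => rfl
  have h1 := h E (algebraicClosure F Ω') Ω'
  exact h1.2 _ (h1.1 U hU)

lemma adjoin_top (k E : Type) [Field k] [Field E] [Algebra k E] (x y : E) :
    IntermediateField.adjoin k {(⟨x, IntermediateField.subset_adjoin k {x, y} (by simp)⟩ :
      IntermediateField.adjoin k {x, y}), ⟨y, IntermediateField.subset_adjoin k {x, y} (by simp)⟩} = ⊤ := by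
  apply IntermediateField.map_injective (IntermediateField.adjoin k {x, y}).val
  rw [IntermediateField.adjoin_map, Set.image_pair, ← AlgHom.fieldRange_eq_map, IntermediateField.fieldRange_val]
  rfl

lemma trans_sub (k E : Type) [Field k] [Field E] [Algebra k E] (F : IntermediateField k E) (x : F)
    (h : Transcendental k (x : E)) : Transcendental k x := fun h1 => h (h1.algebraMap (A := E))

/-- **Main result.** Let `A` be a complete discrete valuation ring with finite residue field and with field of fractions `k` of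
characteristic zero, and `ℓ` a prime number invertible in `A`.

(1) Let `f ∈ A[T]` be a polynomial with invertible leading coefficient, separable reduction, and a degree at least 3 and
divisible by `ℓ`, which has no roots in `k`, and `d ∈ k` an element whose valuation is not divisible by `ℓ`. If `F` is the
function field of the curve `d y ^ ℓ = f(x)`, there are no sections above `F` (`NoSectionsAbove`). If `E` is a field which
contains `k` and elements `P, Q, y` with `P / Q` transcendental over `k` and `d y ^ ℓ = Q ^ n f(P / Q)`, `n = deg f`, there are no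
sections of `Gal(E_U/E)` (`NoSections`).

(2) Let `m = ℓ ^ j`, `j ≥ 1`, `g ∈ A[T]` a polynomial with invertible leading coefficient such that `g(T ^ m)` has separable
reduction and degree at least 3, `a ∈ k` an element whose valuation is not divisible by `m`, and `d ∈ k` not zero, such that
neither `g(0) / d` nor `lc(g) a ^ (deg g) / d` is an `ℓ`-th power in `k`. If `F` is the function field of the curve
`d y ^ ℓ = g(a x ^ m)`, there are no sections above `F`. If `E` is a field which contains `k` and elements `P, Q, y` with `P / Q`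
transcendental over `k` and `d y ^ ℓ = Q ^ (m n) g(a (P / Q) ^ m)`, `n = deg g`, there are no sections of `Gal(E_U/E)`. -/
theorem result (A k : Type) [CommRing A] [IsDomain A] [IsDiscreteValuationRing A]
    [IsAdicComplete (IsLocalRing.maximalIdeal A) A] [Finite (IsLocalRing.ResidueField A)]
    [Field k] [CharZero k] [Algebra A k] [IsFractionRing A k] (ℓ : ℕ) [Fact ℓ.Prime] (hℓ : IsUnit (ℓ : A)) :
    (∀ (f : A[X]) (d : k), ProEllSections.GoodPolynomial ℓ f → ValuationPrimeTo A ℓ d →
      (∀ e : k, aeval e f ≠ 0) →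
      (∀ (F : Type) [Field F] [Algebra k F] (x y : F),
        ProEllSections.IsFunctionField ℓ (f.map (algebraMap A k)) d x y → NoSectionsAbove ℓ k F) ∧
      ∀ (E : Type) [Field E] [Algebra k E] (P Q y : E), Q ≠ 0 → Transcendental k (P / Q) →
        algebraMap k E d * y ^ ℓ = Q ^ f.natDegree * aeval (P / Q) (f.map (algebraMap A k)) → NoSections k E) ∧
    (∀ (j : ℕ) (g : A[X]) (a d : k), 1 ≤ j → TwistsByRotations.GoodPolynomial (ℓ ^ j) g →
      TwistsByRotations.ValuationNotDivisible A (ℓ ^ j) a → d ≠ 0 →
      (∀ c : k, d * c ^ ℓ ≠ algebraMap A k (g.coeff 0)) →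
      (∀ c : k, d * c ^ ℓ ≠ algebraMap A k g.leadingCoeff * a ^ g.natDegree) →
      (∀ (F : Type) [Field F] [Algebra k F] (x y : F),
        TwistsByRotations.IsFunctionField ℓ (ℓ ^ j) (g.map (algebraMap A k)) a d x y → NoSectionsAbove ℓ k F) ∧
      ∀ (E : Type) [Field E] [Algebra k E] (P Q y : E), Q ≠ 0 → Transcendental k (P / Q) →
        algebraMap k E d * y ^ ℓ =
          Q ^ (ℓ ^ j * g.natDegree) * aeval (algebraMap k E a * (P / Q) ^ ℓ ^ j) (g.map (algebraMap A k)) →
        NoSections k E) := by
  have hinj : Function.Injective (algebraMap A k) := IsFractionRing.injective A k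
  have hℓ0 : 0 < ℓ := (Fact.out : ℓ.Prime).pos
  refine ⟨fun f d hf hd hroot => ?_, fun j g a d hj hg ha hd h0 hinf => ?_⟩
  · have h1 : ∀ (F : Type) [Field F] [Algebra k F] (x y : F),
        ProEllSections.IsFunctionField ℓ (f.map (algebraMap A k)) d x y → NoSectionsAbove ℓ k F :=
      fun F _ _ x y hF => above_f k ℓ _ d (ProEllSections.result A k ℓ f d hℓ hf hd) (fun e he => hroot e (by
        rwa [aeval_def, ← eval_map])) F x y hF
    refine ⟨h1, fun E _ _ P Q y hQ hφ heq => ?_⟩
    obtain ⟨r, hr⟩ := hf.2.2.1
    refine descend k E ℓ (IntermediateField.adjoin k {P / Q, y / Q ^ r}) (h1 _ _ _ ⟨?_, ?_, adjoin_top k E _ _⟩)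
    · exact trans_sub k E _ _ hφ
    · apply (algebraMap (IntermediateField.adjoin k {P / Q, y / Q ^ r}) E).injective
      rw [← aeval_algebraMap_apply, map_mul, map_pow]
      change algebraMap k E d * (y / Q ^ r) ^ ℓ = aeval (P / Q) (f.map (algebraMap A k))
      rw [div_pow, ← pow_mul, mul_div_assoc', heq, hr, mul_comm r ℓ, mul_div_cancel_left₀ _ (pow_ne_zero _ hQ)]
  · have ha0 : a ≠ 0 := by
      obtain ⟨ϖ, t, m, hϖ, ht, -, rfl⟩ := ha
      refine mul_ne_zero ?_ (zpow_ne_zero _ ?_)
      · rw [Ne, map_eq_zero_iff _ hinj]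
        exact ht.ne_zero
      · rw [Ne, map_eq_zero_iff _ hinj]
        exact hϖ.ne_zero
    have hdvd : ℓ ∣ ℓ ^ j := dvd_pow_self ℓ (by omega)
    have h1 : ∀ (F : Type) [Field F] [Algebra k F] (x y : F),
        TwistsByRotations.IsFunctionField ℓ (ℓ ^ j) (g.map (algebraMap A k)) a d x y → NoSectionsAbove ℓ k F :=
      fun F _ _ x y hF => above_g k ℓ (ℓ ^ j) hℓ0 hdvd (pow_pos hℓ0 j) _ a d ha0 hd
        (TwistsByRotations.result A k ℓ j hj g a d hℓ hg ha hd)
        (fun c => by rw [← coeff_zero_eq_eval_zero, coeff_map]; exact h0 c)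
        (fun c => by rw [leadingCoeff_map_of_injective hinj, natDegree_map_eq_of_injective hinj]; exact hinf c) F x y hF
    refine ⟨h1, fun E _ _ P Q y hQ hφ heq => ?_⟩
    obtain ⟨r, hr⟩ := hdvd
    refine descend k E ℓ (IntermediateField.adjoin k {P / Q, y / Q ^ (r * g.natDegree)})
      (h1 _ _ _ ⟨?_, ?_, adjoin_top k E _ _⟩)
    · exact trans_sub k E _ _ hφ
    · apply (algebraMap (IntermediateField.adjoin k {P / Q, y / Q ^ (r * g.natDegree)}) E).injective
      rw [← aeval_algebraMap_apply, map_mul, map_pow, map_mul, map_pow]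
      change algebraMap k E d * (y / Q ^ (r * g.natDegree)) ^ ℓ =
        aeval (algebraMap k E a * (P / Q) ^ ℓ ^ j) (g.map (algebraMap A k))
      rw [div_pow, ← pow_mul, mul_div_assoc', heq, show r * g.natDegree * ℓ = ℓ ^ j * g.natDegree by rw [hr]; ring,
        mul_div_cancel_left₀ _ (pow_ne_zero _ hQ)]

end Pool.Agent.Results.MP_c385f6_ag.DominatingVarieties
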