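import Pool.Agent.N999.CY.GenL

/-!
# Sections of plane curves given by norms over `p`-adic fields

Let `k` be a finite extension of `ℚ_p`, or any field of characteristic zero.  We consider the plane
curves of degree `d` over `k`

  `X : N_{E/k}(A₀ x₀ + A₁ x₁ + A₂ x₂) = a Q(x₀, x₁, x₂)ⁿ`,   `A₀, A₁, A₂ ∈ E`,  `a ∈ kˣ`,

where `E/k` is an extension of degree `d`, `n | d`, and `Q` is a form of degree `d/n` over `k` which does
not vanish at the points of intersection of the `d` conjugate lines
`σ(A₀) x₀ + σ(A₁) x₁ + σ(A₂) x₂ = 0` (this is part of the smoothness of `X`).  For `n = d` the form `Q` is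
linear, the conjugate lines meet `X` in one point each, with multiplicity `d`, and these points are on
the line `Q = 0`.

Let `E' ⊆ E` be a field which is a cyclic extension of `k`, of degree `d'`; for a `p`-adic field `k` its
degree can be divisible by `p`, and `E` and `E'` can be wildly ramified.  Let `n r = d' t`, for instance
`r = d'/gcd(n, d')` and `t = n/gcd(n, d')`, and let `ε = 1` if `d'` is odd or `t` is even, `ε = 2`
otherwise.

**Theorem.**  Let `L/k` be a finite extension.  If `X` has a point over `L`, or if the fundamental group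
of `X_L`, or of one of its open subcurves, or of a smooth curve (or variety) over `L` that dominates one
of them, has a section over `G_L`, then `a^(ε r [L : k])` is a norm from `E'`.

For `n = d` one can take `r = 1`, and the condition is that `a^(ε [L : k])` is a norm from `E'`.  For
a `p`-adic field `k` the group `kˣ/N(E'ˣ)` is cyclic of order `d'` by local class field theory.  If, for
instance, `d'` is odd, `n = d` and `a` generates this group, then the degrees of all finite extensions `L`
of `k` over which there are points or sections are divisible by `d'`, and the statement of the section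
conjecture is true for `X` and for all curves that dominate `X` over all `L` of degree not divisible by
`d'`.  If `d` is a power of `p`, then the index of `X` is a power of `p` (the intersection point of one of
the lines with `Q = 0` is defined over `E` if `n = d`), and the known theorem that the index of a curve
over a `p`-adic field whose fundamental group has a section is a power of `p` (Stix) does not exclude
sections over any `L`.

In the starting library there is a result on these curves for extensions `E` which are unramified at a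
discrete valuation of `k` and numbers `a` whose valuation is not divisible by the degrees in question
(`MP_e66f84_ag.NormCurvesAnyField`).  Here `E/k` can be ramified, `a` can be a unit, and no valuation is
used: the condition is that a norm residue symbol vanishes.

The fundamental group is described through valuations.  Let `U` be a smooth geometrically connected
curve over `k` with function field `F`, let `Ω` be an algebraic closure of `F`, and let `F_U` be the
maximal extension of `F` inside `Ω` which is unramified over the closed points of `U`, that is, over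
their local rings, which are valuation rings of `F`.  Then `π₁(U) = Gal(F_U/F)`, and the map
`π₁(U) → G_k` is the restriction of automorphisms to the algebraic closure of `k` in `Ω`.

Proof.  First let `L = k` and `E = E'`, with a generator `g` of the Galois group.  Let `s` be a section,
`Φ` the fixed field of `s(G_k)` in `F_U`, and `Φ_E = Φ E`, so that `Gal(F_U/Φ_E) ≅ G_E`, `k` is
algebraically closed in `Φ`, and `Φ_E/Φ` is cyclic of degree `d`.  Let `λ = A₀ x₀ + A₁ x₁ + A₂ x₂ ∈ Φ_E`.
The function `λ/g(λ)` is an `n`-th power up to units at all places, so it has an `n`-th root in `F_U`,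
and by Hilbert's theorem 90 for `G_E` and `k̄ˣ` it is `c βⁿ` with `c ∈ Eˣ` and `β ∈ Φ_Eˣ`.  The norm of
`λ/g(λ)` is one, so `b = N(β)` is algebraic over `k`, `b ∈ kˣ`, and `N(c) bⁿ = 1`.  Then
`N(c^r b^t) = 1`, and `c^r b^t = e/g(e)`, `e ∈ Eˣ`, by Hilbert's theorem 90.  Let
`γ = ∏_{j < d} ∏_{i < j} gⁱ(β)`.  Then `γ/g(γ) = β^d/b`, and so `R = λ^r/(e γ^t)` is fixed by `g`.  Taking
norms in `λ^r = R e γ^t` one finds `a^r Q^(n r) = R^d N(e) b^(t d (d-1)/2)`.  So `(R/Q^t)^d ∈ k`,
`R/Q^t ∈ k`, and `a^r = N(e R/Q^t) b^(t d (d-1)/2)`.  If `t (d - 1)` is even, then the last factor is the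
norm of `b^(t (d-1)/2)`, and its square is always a norm.  In general the same argument is applied to the
field `L`, the cyclic extension `L E'/L` and the products of the conjugate forms
`σ(A₀) x₀ + σ(A₁) x₁ + σ(A₂) x₂` over the fibres of a map of `G_L`-sets from the set of the embeddings of
`E` to the set of the embeddings of `L E'`, and then one takes the norm from `L` to `k`.
-/

set_option autoImplicit false
set_option maxHeartbeats 1000000

open scoped Matrix

namespace Pool.Agent.Results.MP_c385f6_ag.NormCurvesCyclicSubfields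

section definitions

variable (k F Ω : Type) [Field k] [Field F] [Field Ω] [Algebra k F] [Algebra F Ω] [Algebra k Ω]

/-- The inertia group of the valuation ring `W` of `Ω`, as a subgroup of `Gal(Ω/F)`: the
automorphisms of `Ω` over `F` that map `W` onto itself and act as the identity on its residue
field. -/
noncomputable def inertia (W : ValuationSubring Ω) : Subgroup (Ω ≃ₐ[F] Ω) :=
  (W.inertiaSubgroup F).map (W.decompositionSubgroup F).subtype

/-- `F_U`, for a set `U` of valuation rings of `F`: the elements of `Ω` fixed by the inertia groups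
of all valuation rings `W` of `Ω` with `W ∩ F ∈ U`.  If `Ω` is an algebraic closure of a field `F`
of characteristic zero, this is the maximal extension of `F` in `Ω` unramified over `U`. -/
noncomputable def unramified (U : Set (ValuationSubring F)) : IntermediateField F Ω :=
  ⨅ W : {W : ValuationSubring Ω // W.comap (algebraMap F Ω) ∈ U},
    IntermediateField.fixedField (inertia F Ω W.1)

/-- The map `τ : M → M` acts as `σ : K → K` on the elements that the fields `K` and `M` have in
common when they are regarded as subfields of `Ω` through `i` and `j`. -/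
def ActsAs {K M Ω : Type} [Field K] [Field M] [Field Ω] (i : K →+* Ω) (j : M →+* Ω) (σ : K → K)
    (τ : M → M) : Prop :=
  ∀ c z, j z = i c → j (τ z) = i (σ c)

/-- Let `k ⊆ K ⊆ Ω` and `F ⊆ M ⊆ Ω` be fields.  A splitting of `Gal(M/F) → Gal(K/k)`: a continuous
homomorphism `s` from `Gal(K/k)` to `Gal(M/F)` such that `s(σ)` acts as `σ` on the elements of
`K ∩ M`. -/
structure Splitting (K M : Type) [Field K] [Field M] [Algebra k K] [Algebra F M] [Algebra K Ω]
    [Algebra M Ω] where
  /-- the homomorphism `Gal(K/k) → Gal(M/F)` -/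
  toHom : (K ≃ₐ[k] K) →* (M ≃ₐ[F] M)
  cont : Continuous toHom
  compat : ∀ σ : K ≃ₐ[k] K, ActsAs (algebraMap K Ω) (algebraMap M Ω) σ (toHom σ)

/-- The sections of `π₁(U) = Gal(F_U/F) → G_k`: the continuous homomorphisms `s` from
`G_k = Gal(k̄/k)` to `Gal(F_U/F)`, where `k̄` is the algebraic closure of `k` in `Ω`, such that
`s(σ)` acts as `σ` on the elements of `k̄`. -/
def GaloisSection (U : Set (ValuationSubring F)) : Type :=
  Splitting k F Ω (algebraicClosure k Ω) (unramified F Ω U)

end definitions

section curve

variable {k E : Type} [Field k] [Field E] [Algebra k E] [FiniteDimensional k E]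

/-- The equation `N_{E/k}(A₀ x₀ + A₁ x₁ + A₂ x₂) = a Q(x₀, x₁, x₂)ⁿ` at a vector with entries in an
algebraically closed field `Ω` over `k`: the norm is the product over the embeddings `σ` of `E` into
`Ω` of the `σ(A₀) x₀ + σ(A₁) x₁ + σ(A₂) x₂`. -/
def OnCurve {Ω : Type} [Field Ω] [Algebra k Ω] (A : Fin 3 → E) (a : k)
    (Q : MvPolynomial (Fin 3) k) (n : ℕ) (x : Fin 3 → Ω) : Prop :=
  ∏ σ : E →ₐ[k] Ω, ∑ j, σ (A j) * x j = algebraMap k Ω a * MvPolynomial.aeval x Q ^ n

/-- The form `Q` does not vanish at the points of intersection of two conjugate lines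
`σ(A₀) x₀ + σ(A₁) x₁ + σ(A₂) x₂ = 0`.  (In particular these lines are different.) -/
def Transversal (A : Fin 3 → E) (Q : MvPolynomial (Fin 3) k) : Prop :=
  ∀ σ τ : E →ₐ[k] AlgebraicClosure k, σ ≠ τ →
    MvPolynomial.aeval (crossProduct (fun j => σ (A j)) (fun j => τ (A j))) Q ≠ 0

/-- The curve has no point over `L`. -/
def NoPoint (L : Type) [Field L] [Algebra k L] (A : Fin 3 → E) (a : k)
    (Q : MvPolynomial (Fin 3) k) (n : ℕ) : Prop :=
  ∀ x : Fin 3 → L, x ≠ 0 → ¬ OnCurve A a Q n fun j => algebraMap L (AlgebraicClosure L) (x j)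

/-- Let `F` be any field over `L` that contains a point of the curve, for instance the function field
of the curve over `L` or of a curve over `L` that dominates it, and let `Ω` be an algebraic closure of
`F`.  Then for every set `U` of valuation rings of `F` over `L` there is no section of `π₁(U) → G_L`.  If
`F` is the function field of the curve, such `U` are given by its normalisation and by all its open
subcurves. -/
def NoSection (L : Type) [Field L] [Algebra k L] (A : Fin 3 → E) (a : k)
    (Q : MvPolynomial (Fin 3) k) (n : ℕ) : Prop :=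
  ∀ (F Ω : Type) [Field F] [Field Ω] [Algebra L F] [Algebra F Ω] [Algebra L Ω] [Algebra k Ω]
    [IsScalarTower L F Ω] [IsScalarTower k L Ω] [IsAlgClosure F Ω] (x : Fin 3 → F)
    (U : Set (ValuationSubring F)), x ≠ 0 → OnCurve A a Q n (fun j => algebraMap F Ω (x j)) →
      (∀ O ∈ U, ∀ c : L, algebraMap L F c ∈ O) → IsEmpty (GaloisSection L F Ω U)

end curve

/-- `ε = 1` if `d'` is odd or `t` is even, and `ε = 2` otherwise (for `d' > 0`). -/
def factor (d' t : ℕ) : ℕ := if Even (t * (d' - 1)) then 1 else 2

/-- For all finite extensions `L` of `k`, all `n`, `q`, `r`, `t` with `n q = [E : k]` and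
`n r = [E' : k] t`, and all `a ∈ kˣ` such that `a^(ε r [L : k])` is not a norm from `E'`, where
`ε = factor [E' : k] t`, and for all `A₀, A₁, A₂ ∈ E` and all forms `Q` of degree `q` over `k` that do
not vanish at the points of intersection of the conjugate lines: the curve
`N_{E/k}(A₀ x₀ + A₁ x₁ + A₂ x₂) = a Qⁿ` has no point and no section over `L`. -/
def NothingIfNotNorm (k E' E : Type) [Field k] [Field E'] [Field E] [Algebra k E'] [Algebra k E]
    [FiniteDimensional k E] : Prop :=
  ∀ (L : Type) [Field L] [Algebra k L] [FiniteDimensional k L] (n q r t : ℕ),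
    n * q = Module.finrank k E → n * r = Module.finrank k E' * t → ∀ a : k, a ≠ 0 →
    (¬ ∃ e : E', Algebra.norm k e = a ^ (factor (Module.finrank k E') t * r * Module.finrank k L)) →
    ∀ (A : Fin 3 → E) (Q : MvPolynomial (Fin 3) k), Q.IsHomogeneous q → Transversal A Q →
      NoPoint L A a Q n ∧ NoSection L A a Q n

section proof

open Pool.Agent.TH377.NC Pool.Agent.W620.SC Pool.Agent.N999.CY

variable {k E : Type} [Field k] [CharZero k] [Field E] [Algebra k E] [FiniteDimensional k E]

/-- from the transversality over the algebraic closure of `k` to the one over any algebraically closed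
field over `k` -/
lemma transversal_lift {B : Type} [Field B] [Algebra k B] [IsAlgClosed B] (A : Fin 3 → E)
    (Q : MvPolynomial (Fin 3) k) (htr : Transversal A Q) (σ τ : E →ₐ[k] B) (hne : σ ≠ τ) :
    MvPolynomial.eval₂ (algebraMap k B) ((fun j => σ (A j)) ⨯₃ (fun j => τ (A j))) Q ≠ 0 := by
  classical
  let ι : AlgebraicClosure k →ₐ[k] B := IsAlgClosed.lift
  have hlift : ∀ ρ : E →ₐ[k] B, ∃ ρ' : E →ₐ[k] AlgebraicClosure k, ρ = ι.comp ρ' := by
    intro ρ
    have h1 : Function.Bijective (fun ρ' : E →ₐ[k] AlgebraicClosure k => ι.comp ρ') := by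
      rw [Fintype.bijective_iff_injective_and_card]
      refine ⟨?_, ?_⟩
      · intro ρ' ρ'' h
        ext x
        exact ι.injective (DFunLike.congr_fun h x)
      · rw [AlgHom.card k E B, AlgHom.card k E (AlgebraicClosure k)]
    obtain ⟨ρ', h⟩ := h1.2 ρ
    exact ⟨ρ', h.symm⟩
  obtain ⟨σ', rfl⟩ := hlift σ
  obtain ⟨τ', rfl⟩ := hlift τ
  have h1 := htr σ' τ' (fun h => hne (by rw [h]))
  have h2 : ((fun j => (ι.comp σ') (A j)) ⨯₃ (fun j => (ι.comp τ') (A j))) =
      fun l => (ι : AlgebraicClosure k →+* B) ((crossProduct (fun j => σ' (A j)) (fun j => τ' (A j))) l) := by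
    funext l
    exact map_cross (ι : AlgebraicClosure k →+* B) (fun j => σ' (A j)) (fun j => τ' (A j)) l
  have h3 : (ι : AlgebraicClosure k →+* B).comp (algebraMap k (AlgebraicClosure k)) =
      algebraMap k B := ι.comp_algebraMap
  have h4 : MvPolynomial.eval₂ (algebraMap k B) (fun l => (ι : AlgebraicClosure k →+* B)
      ((crossProduct (fun j => σ' (A j)) (fun j => τ' (A j))) l)) Q =
      (ι : AlgebraicClosure k →+* B) (MvPolynomial.aeval
        (crossProduct (fun j => σ' (A j)) (fun j => τ' (A j))) Q) := by
    rw [MvPolynomial.aeval_def, MvPolynomial.hom_eval₂, h3]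
  rw [h2, h4]
  exact (_root_.map_ne_zero _).2 h1

omit [CharZero k] in
lemma toSec {F : Type} {Ω : Type} [Field F] [Field Ω] [Algebra k F] [Algebra F Ω] [Algebra k Ω]
    (U : Set (ValuationSubring F)) (h : IsEmpty (GSection k F Ω U)) :
    IsEmpty (GaloisSection k F Ω U) :=
  ⟨fun s => h.false ⟨s.toHom, s.cont, s.compat⟩⟩

/-- the conjugate forms do not vanish at a point -/
lemma form_ne_zero {B : Type} [Field B] [Algebra k B] [IsAlgClosed B] {C : Type} [Field C]
    (j : B →+* C) (A : Fin 3 → E) (Q : MvPolynomial (Fin 3) k) (q : ℕ) (hQ : Q.IsHomogeneous q)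
    (htr : Transversal A Q) (u : Fin 3 → C) (hu : u ≠ 0) (σ τ : E →ₐ[k] B) (hne : σ ≠ τ)
    (h1 : ∑ l, j (σ (A l)) * u l = 0) (h2 : ∑ l, j (τ (A l)) * u l = 0) :
    MvPolynomial.eval₂ (j.comp (algebraMap k B)) u Q ≠ 0 :=
  common_zero j (algebraMap k B) Q q hQ (fun l => σ (A l)) (fun l => τ (A l))
    (transversal_lift A Q htr σ τ hne) u hu h1 h2

/-- two different embeddings -/
lemma exists_ne {B : Type} [Field B] [Algebra k B] [IsAlgClosed B]
    (hd : 1 < Module.finrank k E) (σ : E →ₐ[k] B) : ∃ τ : E →ₐ[k] B, τ ≠ σ := by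
  have h1 : 1 < Fintype.card (E →ₐ[k] B) := by rwa [AlgHom.card k E B]
  exact Fintype.exists_ne_of_one_lt_card h1 σ

/-- a point on one of the lines and on `Q = 0` is on no other line -/
lemma unique_line {B : Type} [Field B] [Algebra k B] [IsAlgClosed B] {C : Type} [Field C]
    (j : B →+* C) (A : Fin 3 → E) (Q : MvPolynomial (Fin 3) k) (q : ℕ) (hQ : Q.IsHomogeneous q)
    (htr : Transversal A Q) (u : Fin 3 → C) (hu : u ≠ 0)
    (hQu : MvPolynomial.eval₂ (j.comp (algebraMap k B)) u Q = 0) (σ τ : E →ₐ[k] B)
    (h1 : ∑ l, j (σ (A l)) * u l = 0) (h2 : ∑ l, j (τ (A l)) * u l = 0) : σ = τ := by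
  by_contra hne
  exact form_ne_zero j A Q q hQ htr u hu σ τ hne h1 h2 hQu

variable {E' : Type} [Field E'] [Algebra k E'] [Algebra E' E] [IsScalarTower k E' E]

/-- a point over `L` -/
lemma of_point [IsGalois k E'] [IsCyclic (E' ≃ₐ[k] E')] {L B : Type} [Field L] [Algebra k L]
    [FiniteDimensional k L] [Field B] [Algebra L B] [Algebra k B] [IsScalarTower k L B]
    [IsAlgClosed B] [Algebra.IsAlgebraic L B] (n q r t : ℕ) (hn : 0 < n)
    (hnr : n * r = Module.finrank k E' * t) (a : k) (ha : a ≠ 0)
    (A : Fin 3 → E) (Q : MvPolynomial (Fin 3) k) (hQ : Q.IsHomogeneous q) (htr : Transversal A Q)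
    (x : Fin 3 → L) (hx : x ≠ 0)
    (hon : ∏ σ : E →ₐ[k] B, ∑ j, σ (A j) * algebraMap L B (x j) =
      algebraMap k B a * MvPolynomial.aeval (fun j => algebraMap L B (x j)) Q ^ n) :
    ∃ e : E', Algebra.norm k e =
      a ^ (fac (Module.finrank k E') t * r * Module.finrank k L) := by
  set c : L := MvPolynomial.eval₂ (algebraMap k L) x Q with hc
  have hc' : MvPolynomial.aeval (fun j => algebraMap L B (x j)) Q = algebraMap L B c := by
    rw [hc, MvPolynomial.aeval_def, MvPolynomial.hom_eval₂, ← IsScalarTower.algebraMap_eq]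
  rw [hc'] at hon
  have hx' : (fun j => algebraMap L B (x j)) ≠ 0 := by
    intro h
    apply hx
    funext j
    exact (_root_.map_eq_zero _).1 (congrFun h j)
  by_cases hc0 : c = 0
  · rw [hc0, map_zero, zero_pow hn.ne', mul_zero] at hon
    obtain ⟨i, -, hi⟩ := Finset.prod_eq_zero_iff.1 hon
    refine norm_of_embeds i (fun σ z => ?_) a _
    have h1 : ∑ l, (((σ : B →ₐ[L] B).restrictScalars k).comp i)
        (A l) * algebraMap L B (x l) = 0 := by
      have h2 := congrArg σ hi
      rw [map_zero, map_sum] at h2
      rw [← h2]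
      refine Finset.sum_congr rfl fun l _ => ?_
      rw [map_mul, σ.commutes]
      rfl
    have h3 := unique_line (RingHom.id B) A Q q hQ htr
      (fun j => algebraMap L B (x j)) hx' (by
        rw [RingHom.id_comp, ← MvPolynomial.aeval_def, hc', hc0, map_zero])
      (((σ : B →ₐ[L] B).restrictScalars k).comp i) i h1 hi
    exact DFunLike.congr_fun h3 z
  · exact genPt A x c hc0 a ha n r t hn hnr hon

/-- no point over `L` -/
lemma no_point [IsGalois k E'] [IsCyclic (E' ≃ₐ[k] E')] (L : Type) [Field L] [Algebra k L]
    [FiniteDimensional k L] (n q r t : ℕ) (hn : 0 < n)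
    (hnr : n * r = Module.finrank k E' * t) (a : k) (ha : a ≠ 0)
    (hnot : ¬ ∃ e : E', Algebra.norm k e =
      a ^ (fac (Module.finrank k E') t * r * Module.finrank k L))
    (A : Fin 3 → E) (Q : MvPolynomial (Fin 3) k) (hQ : Q.IsHomogeneous q) (htr : Transversal A Q) :
    NoPoint L A a Q n := by
  intro x hx hon
  exact hnot (of_point n q r t hn hnr a ha A Q hQ htr x hx hon)

/-- no section over `L` -/
lemma no_sec [IsGalois k E'] [IsCyclic (E' ≃ₐ[k] E')] (L : Type) [Field L] [Algebra k L]
    [FiniteDimensional k L] (n q r t : ℕ) (hn : 0 < n) (hnq : n * q = Module.finrank k E)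
    (hnr : n * r = Module.finrank k E' * t) (a : k) (ha : a ≠ 0)
    (hnot : ¬ ∃ e : E', Algebra.norm k e =
      a ^ (fac (Module.finrank k E') t * r * Module.finrank k L))
    (A : Fin 3 → E) (Q : MvPolynomial (Fin 3) k) (hQ : Q.IsHomogeneous q) (htr : Transversal A Q) :
    NoSection L A a Q n := by
  intro F Ω _ _ _ _ _ _ _ _ _ x U hx hon hU
  have hcl : IsAlgClosed Ω := IsAlgClosure.isAlgClosed F
  have halg : Algebra.IsAlgebraic F Ω := IsAlgClosure.isAlgebraic
  have hcL : CharZero L := charZero_of_injective_algebraMap (algebraMap k L).injective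
  have hac : IsAlgClosure L (algebraicClosure L Ω) := inferInstance
  have hA : IsAlgClosed (algebraicClosure L Ω) := hac.1
  refine toSec U ⟨fun G => hnot ?_⟩
  unfold OnCurve at hon
  set y : F := MvPolynomial.eval₂ ((algebraMap L F).comp (algebraMap k L)) x Q with hy
  have hcomp : (algebraMap F Ω).comp ((algebraMap L F).comp (algebraMap k L)) =
      algebraMap k Ω := by
    rw [← RingHom.comp_assoc, ← IsScalarTower.algebraMap_eq L F Ω,
      ← IsScalarTower.algebraMap_eq k L Ω]
  have hy' : MvPolynomial.aeval (fun j => algebraMap F Ω (x j)) Q = algebraMap F Ω y := by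
    rw [hy, MvPolynomial.aeval_def, MvPolynomial.hom_eval₂, hcomp]
  set j : algebraicClosure L Ω →+* Ω := algebraMap (algebraicClosure L Ω) Ω with hj
  set g : k →+* algebraicClosure L Ω := algebraMap k (algebraicClosure L Ω) with hg
  have hjg : j.comp g = algebraMap k Ω := rfl
  set x' : Fin 3 → Ω := fun i => algebraMap F Ω (x i) with hx'
  have hx'0 : x' ≠ 0 := by
    intro h
    apply hx
    funext i
    exact (_root_.map_eq_zero _).1 (congrFun h i)
  have hQx : algebraMap F Ω y = MvPolynomial.eval₂ (j.comp g) x' Q := by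
    rw [hjg, ← hy']
    rfl
  have hprod : ∏ i : E →ₐ[k] algebraicClosure L Ω, ∑ l, j (i (A l)) * algebraMap F Ω (x l) =
      algebraMap k Ω a * algebraMap F Ω y ^ n := by
    rw [← hy', ← hon]
    exact prod_closure (L := L) (fun σ : E →ₐ[k] Ω => ∑ l, σ (A l) * algebraMap F Ω (x l))
  by_cases hy0 : y = 0
  · have hprod0 := hprod
    rw [hy0, map_zero, zero_pow hn.ne', mul_zero] at hprod0
    obtain ⟨i, -, hi⟩ := Finset.prod_eq_zero_iff.1 hprod0
    refine norm_of_embeds i (fun σ z => ?_) a _
    have h1 := zero_act U hU G A x i hi σ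
    have h3 := unique_line j A Q q hQ htr x' hx'0 (by rw [← hQx, hy0, map_zero])
      (((σ : algebraicClosure L Ω →ₐ[L] algebraicClosure L Ω).restrictScalars k).comp i) i h1 hi
    exact DFunLike.congr_fun h3 z
  have h0 : ∀ i : E →ₐ[k] algebraicClosure L Ω, ∑ l, j (i (A l)) * x' l ≠ 0 := by
    intro i hi
    have h1 : algebraMap k Ω a * algebraMap F Ω y ^ n = 0 := by
      rw [← hprod]
      exact Finset.prod_eq_zero (Finset.mem_univ i) hi
    exact mul_ne_zero ((_root_.map_ne_zero _).2 ha)
      (pow_ne_zero _ ((_root_.map_ne_zero _).2 hy0)) h1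
  have hWk : ∀ W : ValuationSubring Ω, W.comap (algebraMap F Ω) ∈ U →
      ∀ c : L, algebraMap L Ω c ∈ W := by
    intro W hW c
    rw [IsScalarTower.algebraMap_apply L F Ω]
    exact hU _ hW c
  have hWA : ∀ W : ValuationSubring Ω, W.comap (algebraMap F Ω) ∈ U →
      ∀ c : algebraicClosure L Ω, j c ∈ W := by
    intro W hW c
    exact const_mem (hWk W hW) c.2
  refine genL U hU G A x y hy0 a ha n r t hn hnr hprod ?_
  intro i i' W hW
  have hrel : j (g a) * MvPolynomial.eval₂ (j.comp g) x' Q ^ (1 * n) =
      ∏ i : E →ₐ[k] algebraicClosure L Ω, ∑ l, j (i (A l)) * x' l := by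
    rw [one_mul, ← hQx]
    exact hprod.symm
  obtain ⟨t, k0, m, ht, ht0, h3, h4⟩ := ratio_lin j W (hWA W hW) g Q q hQ
    (fun (i : E →ₐ[k] algebraicClosure L Ω) l => i (A l))
    (fun i i' hii => transversal_lift A Q htr i i' hii) x' hx'0 n 1 one_pos hn (g a)
    ((_root_.map_ne_zero _).2 ha) (by rw [one_mul, hnq, AlgHom.card k E (algebraicClosure L Ω)])
    hrel i i' (h0 i) (h0 i')
  refine ⟨t, ?_, ht0, h3, h4⟩
  have h5 : t = algebraMap F Ω ((y ^ 1 / x k0 ^ (1 * q)) ^ m) := by
    rw [ht, map_zpow₀, map_div₀, map_pow, map_pow, hQx]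
  rw [h5]
  exact IntermediateField.algebraMap_mem _ _

end proof

/-- Let `k` be a field of characteristic zero, for instance a finite extension of `ℚ_p`, `E/k` a finite
extension, and `E' ⊆ E` a field which is a cyclic extension of `k`, for instance wildly ramified.  Let
`L/k` be a finite extension, `n q = [E : k]`, `n r = [E' : k] t`, and `ε = 1` if `[E' : k]` is odd or `t`
is even, `ε = 2` otherwise.  Let `a ∈ kˣ`, `A₀, A₁, A₂ ∈ E`, and let `Q` be a form of degree `q` over
`k` that does not vanish at the points of intersection of the conjugate lines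
`σ(A₀) x₀ + σ(A₁) x₁ + σ(A₂) x₂ = 0`.  If `a^(ε r [L : k])` is not a norm from `E'`, then the plane curve
`N_{E/k}(A₀ x₀ + A₁ x₁ + A₂ x₂) = a Qⁿ` has no point over `L`, and the fundamental groups of its open
subcurves over `L` and of all smooth curves over `L` that dominate it have no sections over `G_L`. -/
theorem result (k E' E : Type) [Field k] [CharZero k] [Field E'] [Field E] [Algebra k E']
    [Algebra k E] [Algebra E' E] [IsScalarTower k E' E] [FiniteDimensional k E] [IsGalois k E']
    [IsCyclic (E' ≃ₐ[k] E')] : NothingIfNotNorm k E' E := by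
  intro L _ _ _ n q r t hnq hnr a ha hnot A Q hQ htr
  have hn : 0 < n := by
    rcases Nat.eq_zero_or_pos n with h | h
    · rw [h, zero_mul] at hnq
      have h1 : 0 < Module.finrank k E := Module.finrank_pos
      omega
    · exact h
  exact ⟨no_point L n q r t hn hnr a ha hnot A Q hQ htr,
    no_sec L n q r t hn hnq hnr a ha hnot A Q hQ htr⟩

end Pool.Agent.Results.MP_c385f6_ag.NormCurvesCyclicSubfields
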