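import Pool.Agent.N999.CY.Sup

/-!
# Sections of superelliptic curves `a yⁿ = N_{E/k}(P(x))` over `p`-adic fields

Let `k` be a finite extension of `ℚ_p`, or any field of characteristic zero, let `E/k` be a finite
extension of degree `d`, `P ∈ E[x]` a polynomial whose conjugates over `k` are pairwise coprime,
`a ∈ kˣ` and `n ≥ 1`.  We consider the curve

  `C : a yⁿ = N_{E/k}(P(x)) = ∏_σ σ(P)(x)`,

where `σ` runs through the `d` embeddings of `E` into an algebraic closure.  For instance, every equation
`a yⁿ = f(x)` with a monic irreducible polynomial `f ∈ k[x]` is of this form, with `E = k(θ)`, `θ` a root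
of `f`, and `P = x - θ`.

Let `E' ⊆ E` be a field which is a cyclic extension of `k`, of degree `d'`; for a `p`-adic field `k` its
degree can be divisible by `p`, and `E` and `E'` can be wildly ramified.  Let `n r = d' t`, for instance
`r = d'/gcd(n, d')` and `t = n/gcd(n, d')`, and let `ε = 1` if `d'` is odd or `t` is even, `ε = 2`
otherwise.

**Theorem.**  Let `L/k` be a finite extension.  If `C` has a point over `L` (an affine point, or a
rational point of the smooth projective curve at infinity), or if the fundamental group of `C_L`, or of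
one of its open subcurves, or of a smooth curve (or variety) over `L` that dominates one of them, has a
section over `G_L`, then `a^(ε r [L : k])` is a norm from `E'`.

For example, let `p` be odd, `E = E'` a totally ramified cyclic extension of degree `p` of a `p`-adic field
`k`, `f` the minimal polynomial of a generator `θ` of `E`, and `C : a y^p = f(x)`, of genus
`(p - 1)(p - 2)/2`.  If `a` is not a norm from `E`, for instance a suitable unit, then over all extensions
`L` of `k` of degree prime to `p` the curve `C` has neither points nor sections.  It has a point over `E`,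
so its index is `p`, and the known theorem that the index of a curve over a `p`-adic field whose
fundamental group has a section is a power of `p` (Stix) does not exclude sections.  If `d'` is even,
`n` is divisible by `2 d'`, then `ε = 1`, `r = 1`, and `a` itself is a norm from `E'` if there is a
section.

In the starting library there are results on the curves `a yⁿ = f(x)` at a discrete valuation of the
base field at which the roots of `f` are unramified (or `f` has a good reduction) and the valuation of
`a` is not divisible by a prime factor of `n` (`Pool.Agent.TH120.Sec.local_odd`,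
`MP_c385f6_ag.ProEllSections` and others).  Here `f` has bad reduction in general, the roots of `f` can
be wildly ramified, `a` can be a unit, and no valuation is used.

The fundamental group is described through valuations.  Let `U` be a smooth geometrically connected
curve over `k` with function field `F`, let `Ω` be an algebraic closure of `F`, and let `F_U` be the
maximal extension of `F` inside `Ω` which is unramified over the closed points of `U`, that is, over
their local rings, which are valuation rings of `F`.  Then `π₁(U) = Gal(F_U/F)`, and the map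
`π₁(U) → G_k` is the restriction of automorphisms to the algebraic closure of `k` in `Ω`.

Proof.  The quotients of the functions `σ(P)(x)` and `τ(P)(x)` on `C` are `n`-th powers up to units at all
places: at a place where `x` is finite at most one of the `σ(P)(x)` is not a unit, and the product is
`a yⁿ`, and at a pole of `x` they all have the same value, as the conjugates of `P` have the same degree.
So they have `n`-th roots in `F_U`.  The rest of the proof is the one of
`MP_c385f6_ag.NormCurvesCyclicSubfields` (library `Pool.Agent.N999.CY`), where the argument is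
explained: Kummer theory and Hilbert's theorem 90 for `G_E` and for `E/k` show that for `λ = P(x)` one has
`λ^r = R e γ^t` with a function `R` fixed by the section, `e ∈ Eˣ`, and a function `γ` whose norm is a
power of a constant `b ∈ kˣ` which is the norm of a function.
-/

set_option autoImplicit false
set_option maxHeartbeats 1000000

open Polynomial

namespace Pool.Agent.Results.MP_c385f6_ag.SuperellipticNormCurves

section definitions

variable (k F Ω : Type) [Field k] [Field F] [Field Ω] [Algebra k F] [Algebra F Ω] [Algebra k Ω]

/-- The inertia group of the valuation ring `W` of `Ω`, as a subgroup of `Gal(Ω/F)`: the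
automorphisms of `Ω` over `F` that map `W` onto itself and act as the identity on its residue
field. -/
noncomputable def inertia (W : ValuationSubring Ω) : Subgroup (Ω ≃ₐ[F] Ω) :=
  (W.inertiaSubgroup F).map (W.decompositionSubgroup F).subtype

/-- `F_U`, for a set `U` of valuation rings of `F`: the elements of `Ω` fixed by the inertia groups
of all valuation rings `W` of `Ω` with `W ∩ F ∈ U`.  If `Ω` is an algebraic closure of a field `F`
of characteristic zero, this is the maximal extension of `F` in `Ω` unramified over `U`. -/
noncomputable def unramified (U : Set (ValuationSubring F)) : IntermediateField F Ω :=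
  ⨅ W : {W : ValuationSubring Ω // W.comap (algebraMap F Ω) ∈ U},
    IntermediateField.fixedField (inertia F Ω W.1)

/-- The map `τ : M → M` acts as `σ : K → K` on the elements that the fields `K` and `M` have in
common when they are regarded as subfields of `Ω` through `i` and `j`. -/
def ActsAs {K M Ω : Type} [Field K] [Field M] [Field Ω] (i : K →+* Ω) (j : M →+* Ω) (σ : K → K)
    (τ : M → M) : Prop :=
  ∀ c z, j z = i c → j (τ z) = i (σ c)

/-- Let `k ⊆ K ⊆ Ω` and `F ⊆ M ⊆ Ω` be fields.  A splitting of `Gal(M/F) → Gal(K/k)`: a continuous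
homomorphism `s` from `Gal(K/k)` to `Gal(M/F)` such that `s(σ)` acts as `σ` on the elements of
`K ∩ M`. -/
structure Splitting (K M : Type) [Field K] [Field M] [Algebra k K] [Algebra F M] [Algebra K Ω]
    [Algebra M Ω] where
  /-- the homomorphism `Gal(K/k) → Gal(M/F)` -/
  toHom : (K ≃ₐ[k] K) →* (M ≃ₐ[F] M)
  cont : Continuous toHom
  compat : ∀ σ : K ≃ₐ[k] K, ActsAs (algebraMap K Ω) (algebraMap M Ω) σ (toHom σ)

/-- The sections of `π₁(U) = Gal(F_U/F) → G_k`: the continuous homomorphisms `s` from
`G_k = Gal(k̄/k)` to `Gal(F_U/F)`, where `k̄` is the algebraic closure of `k` in `Ω`, such that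
`s(σ)` acts as `σ` on the elements of `k̄`. -/
def GaloisSection (U : Set (ValuationSubring F)) : Type :=
  Splitting k F Ω (algebraicClosure k Ω) (unramified F Ω U)

end definitions

section curve

variable {k E : Type} [Field k] [Field E] [Algebra k E] [FiniteDimensional k E]

/-- The equation `a yⁿ = N_{E/k}(P(x))` for elements `x`, `y` of an algebraically closed field `Ω` over
`k`: the norm is the product over the embeddings `σ` of `E` into `Ω` of the `σ(P)(x)`. -/
def OnCurve {Ω : Type} [Field Ω] [Algebra k Ω] (P : E[X]) (a : k) (n : ℕ) (x y : Ω) : Prop :=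
  ∏ σ : E →ₐ[k] Ω, P.eval₂ (σ : E →+* Ω) x = algebraMap k Ω a * y ^ n

/-- The conjugates `σ(P)` of the polynomial `P` over `k` are pairwise coprime. -/
def ConjugatesCoprime (k : Type) {E : Type} [Field k] [Field E] [Algebra k E] (P : E[X]) : Prop :=
  ∀ σ τ : E →ₐ[k] AlgebraicClosure k, σ ≠ τ →
    IsCoprime (P.map (σ : E →+* AlgebraicClosure k)) (P.map (τ : E →+* AlgebraicClosure k))

/-- There are no `x, y ∈ L` with `a yⁿ = N_{E/k}(P(x))`, and no `u, v ∈ L`, `u ≠ 0`, with
`a vⁿ = N_{E/k}(lc P) u^N`, where `N = [E : k] deg P` is the degree of `N_{E/k}(P(x))`.  (The second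
condition says that there is no place of the curve over `L` above `x = ∞` with residue field `L`: for a
uniformiser `π` at a pole of `x` with ramification index `i` one has `x = u π^(-i)` and
`y = v π^(-i N/n)` with units `u, v`.) -/
def NoPoint (L : Type) [Field L] [Algebra k L] (P : E[X]) (a : k) (n : ℕ) : Prop :=
  (∀ x y : L, ¬ OnCurve P a n (algebraMap L (AlgebraicClosure L) x)
    (algebraMap L (AlgebraicClosure L) y)) ∧
  ∀ u v : L, u ≠ 0 → algebraMap k L a * v ^ n ≠
    algebraMap k L (Algebra.norm k P.leadingCoeff) * u ^ (Module.finrank k E * P.natDegree)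

/-- Let `F` be any field over `L` that contains a point `(x, y)` of the curve, for instance the function
field of the curve over `L` or of a curve over `L` that dominates it, and let `Ω` be an algebraic closure
of `F`.  Then for every set `U` of valuation rings of `F` over `L` there is no section of
`π₁(U) → G_L`.  If `F` is the function field of the curve, such `U` are given by its normalisation and by
all its open subcurves. -/
def NoSection (L : Type) [Field L] [Algebra k L] (P : E[X]) (a : k) (n : ℕ) : Prop :=
  ∀ (F Ω : Type) [Field F] [Field Ω] [Algebra L F] [Algebra F Ω] [Algebra L Ω] [Algebra k Ω]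
    [IsScalarTower L F Ω] [IsScalarTower k L Ω] [IsAlgClosure F Ω] (x y : F)
    (U : Set (ValuationSubring F)), OnCurve P a n (algebraMap F Ω x) (algebraMap F Ω y) →
      (∀ O ∈ U, ∀ c : L, algebraMap L F c ∈ O) → IsEmpty (GaloisSection L F Ω U)

end curve

/-- `ε = 1` if `d'` is odd or `t` is even, and `ε = 2` otherwise (for `d' > 0`). -/
def factor (d' t : ℕ) : ℕ := if Even (t * (d' - 1)) then 1 else 2

/-- For all finite extensions `L` of `k`, all `n ≥ 1`, `r`, `t` with `n r = [E' : k] t`, and all
`a ∈ kˣ` such that `a^(ε r [L : k])` is not a norm from `E'`, where `ε = factor [E' : k] t`, and for all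
`P ∈ E[x]` with pairwise coprime conjugates: the curve `a yⁿ = N_{E/k}(P(x))` has no point and no
section over `L`. -/
def NothingIfNotNorm (k E' E : Type) [Field k] [Field E'] [Field E] [Algebra k E'] [Algebra k E]
    [FiniteDimensional k E] : Prop :=
  ∀ (L : Type) [Field L] [Algebra k L] [FiniteDimensional k L] (n r t : ℕ), 0 < n →
    n * r = Module.finrank k E' * t → ∀ a : k, a ≠ 0 →
    (¬ ∃ e : E', Algebra.norm k e = a ^ (factor (Module.finrank k E') t * r * Module.finrank k L)) →
    ∀ P : E[X], ConjugatesCoprime k P → NoPoint L P a n ∧ NoSection L P a n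

section proof

open Pool.Agent.TH377.NC Pool.Agent.W620.SC Pool.Agent.N999.CY

variable {k E : Type} [Field k] [CharZero k] [Field E] [Algebra k E] [FiniteDimensional k E]

/-- coprimality over any algebraically closed field over `k` -/
lemma coprime_lift {B : Type} [Field B] [Algebra k B] [IsAlgClosed B] (P : E[X])
    (hP : ConjugatesCoprime k P) (σ τ : E →ₐ[k] B) (hne : σ ≠ τ) :
    IsCoprime (P.map (σ : E →+* B)) (P.map (τ : E →+* B)) := by
  let ι : AlgebraicClosure k →ₐ[k] B := IsAlgClosed.lift
  have hlift : ∀ ρ : E →ₐ[k] B, ∃ ρ' : E →ₐ[k] AlgebraicClosure k, ρ = ι.comp ρ' := by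
    intro ρ
    have h1 : Function.Bijective (fun ρ' : E →ₐ[k] AlgebraicClosure k => ι.comp ρ') := by
      rw [Fintype.bijective_iff_injective_and_card]
      refine ⟨?_, ?_⟩
      · intro ρ' ρ'' h
        ext x
        exact ι.injective (DFunLike.congr_fun h x)
      · rw [AlgHom.card k E B, AlgHom.card k E (AlgebraicClosure k)]
    obtain ⟨ρ', h⟩ := h1.2 ρ
    exact ⟨ρ', h.symm⟩
  obtain ⟨σ', rfl⟩ := hlift σ
  obtain ⟨τ', rfl⟩ := hlift τ
  have h1 := hP σ' τ' (fun h => hne (by rw [h]))
  have h2 := h1.map (Polynomial.mapRingHom (ι : AlgebraicClosure k →+* B))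
  rw [coe_mapRingHom, Polynomial.map_map, Polynomial.map_map] at h2
  exact h2

omit [CharZero k] in
lemma toSec {F : Type} {Ω : Type} [Field F] [Field Ω] [Algebra k F] [Algebra F Ω] [Algebra k Ω]
    (U : Set (ValuationSubring F)) (h : IsEmpty (GSection k F Ω U)) :
    IsEmpty (GaloisSection k F Ω U) :=
  ⟨fun s => h.false ⟨s.toHom, s.cont, s.compat⟩⟩

/-- the values as sums over the coefficients -/
lemma eval_sum {B C : Type} [Field B] [Field C] (j : B →+* C) (f : E →+* B) (P : E[X]) (x : C) :
    (P.map f).eval₂ j x = ∑ l : Fin (P.natDegree + 1), j (f (P.coeff l)) * x ^ (l : ℕ) := by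
  rw [eval₂_map, eval₂_eq_sum_range, Finset.sum_range]
  rfl

variable {E' : Type} [Field E'] [Algebra k E'] [Algebra E' E] [IsScalarTower k E' E]

/-- a root of only one of the conjugates -/
lemma unique_root {B C : Type} [Field B] [Algebra k B] [IsAlgClosed B] [Field C] (j : B →+* C)
    (P : E[X]) (hP : ConjugatesCoprime k P) (σ τ : E →ₐ[k] B) (x : C)
    (h1 : (P.map (σ : E →+* B)).eval₂ j x = 0) (h2 : (P.map (τ : E →+* B)).eval₂ j x = 0) :
    σ = τ := by
  by_contra hne
  obtain ⟨u, v, huv⟩ := coprime_lift P hP σ τ hne
  have h3 : eval₂ j x (u * P.map (σ : E →+* B) + v * P.map (τ : E →+* B)) = 1 := by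
    rw [huv, eval₂_one]
  rw [eval₂_add, eval₂_mul, eval₂_mul, h1, h2, mul_zero, mul_zero, add_zero] at h3
  exact zero_ne_one h3

/-- affine points over `L` -/
lemma of_point [IsGalois k E'] [IsCyclic (E' ≃ₐ[k] E')] {L B : Type} [Field L] [Algebra k L]
    [FiniteDimensional k L] [Field B] [Algebra L B] [Algebra k B] [IsScalarTower k L B]
    [IsAlgClosed B] [Algebra.IsAlgebraic L B] (n r t : ℕ) (hn : 0 < n)
    (hnr : n * r = Module.finrank k E' * t) (a : k) (ha : a ≠ 0)
    (P : E[X]) (hP : ConjugatesCoprime k P) (x y : L)
    (hon : ∏ σ : E →ₐ[k] B, P.eval₂ (σ : E →+* B) (algebraMap L B x) =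
      algebraMap k B a * algebraMap L B y ^ n) :
    ∃ e : E', Algebra.norm k e =
      a ^ (fac (Module.finrank k E') t * r * Module.finrank k L) := by
  have hev : ∀ σ : E →ₐ[k] B, P.eval₂ (σ : E →+* B) (algebraMap L B x) =
      ∑ l : Fin (P.natDegree + 1), σ (P.coeff l) * algebraMap L B (x ^ (l : ℕ)) := by
    intro σ
    rw [eval₂_eq_sum_range, Finset.sum_range]
    refine Finset.sum_congr rfl fun l _ => ?_
    rw [map_pow]
    rfl
  by_cases hy0 : y = 0
  · rw [hy0, map_zero, zero_pow hn.ne', mul_zero] at hon
    obtain ⟨i, -, hi⟩ := Finset.prod_eq_zero_iff.1 hon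
    refine norm_of_embeds i (fun σ z => ?_) a _
    have h1 : P.eval₂ ((((σ : B →ₐ[L] B).restrictScalars k).comp i : E →ₐ[k] B) : E →+* B)
        (algebraMap L B x) = 0 := by
      rw [hev] at hi ⊢
      have h2 := congrArg σ hi
      rw [map_zero, map_sum] at h2
      rw [← h2]
      refine Finset.sum_congr rfl fun l _ => ?_
      rw [map_mul, σ.commutes]
      rfl
    have h3 := unique_root (RingHom.id B) P hP (((σ : B →ₐ[L] B).restrictScalars k).comp i) i
      (algebraMap L B x) (by rw [eval₂_map, RingHom.id_comp, h1])
      (by rw [eval₂_map, RingHom.id_comp, hi])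
    exact DFunLike.congr_fun h3 z
  · refine genPt (A := B) (fun l : Fin (P.natDegree + 1) => P.coeff l) (fun l => x ^ (l : ℕ)) y hy0
      a ha n r t hn hnr ?_
    rw [← hon]
    exact Finset.prod_congr rfl fun σ _ => (hev σ).symm

/-- no point over `L` -/
lemma no_point [IsGalois k E'] [IsCyclic (E' ≃ₐ[k] E')] (L : Type) [Field L] [Algebra k L]
    [FiniteDimensional k L] (n r t : ℕ) (hn : 0 < n)
    (hnr : n * r = Module.finrank k E' * t) (a : k) (ha : a ≠ 0)
    (hnot : ¬ ∃ e : E', Algebra.norm k e =
      a ^ (fac (Module.finrank k E') t * r * Module.finrank k L))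
    (P : E[X]) (hP : ConjugatesCoprime k P) : NoPoint L P a n := by
  refine ⟨fun x y hon => hnot (of_point n r t hn hnr a ha P hP x y hon), fun u v hu huv => ?_⟩
  apply hnot
  by_cases hlc : P.leadingCoeff = 0
  · -- the polynomial is zero, and the degree is one
    have hP0 : P = 0 := leadingCoeff_eq_zero.1 hlc
    by_cases hd : ∃ σ τ : E →ₐ[k] AlgebraicClosure k, σ ≠ τ
    · obtain ⟨σ, τ, hne⟩ := hd
      have h1 := hP σ τ hne
      rw [hP0, Polynomial.map_zero, Polynomial.map_zero, isCoprime_zero_left] at h1
      exact absurd h1 not_isUnit_zero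
    · push Not at hd
      have h1 : Fintype.card (E →ₐ[k] AlgebraicClosure k) ≤ 1 :=
        Fintype.card_le_one_iff.2 hd
      rw [AlgHom.card k E (AlgebraicClosure k)] at h1
      have h2 : Module.finrank k E' * Module.finrank E' E = Module.finrank k E :=
        Module.finrank_mul_finrank k E' E
      have hfd : FiniteDimensional k E' := FiniteDimensional.left k E' E
      have h3 : 0 < Module.finrank k E' := Module.finrank_pos
      have h5 : 0 < Module.finrank k E := Module.finrank_pos
      have h4 : Module.finrank k E' = 1 := by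
        have h6 : Module.finrank k E' ∣ 1 := ⟨Module.finrank E' E, by omega⟩
        exact Nat.dvd_one.1 h6
      refine ⟨algebraMap k E' (a ^ (fac (Module.finrank k E') t * r * Module.finrank k L)), ?_⟩
      rw [Algebra.norm_algebraMap, h4, pow_one]
  · have hv : v ≠ 0 := by
      rintro rfl
      rw [zero_pow hn.ne', mul_zero] at huv
      exact mul_ne_zero ((_root_.map_ne_zero _).2 (Algebra.norm_ne_zero_iff.2 hlc))
        (pow_ne_zero _ hu) huv.symm
    refine genPt (A := AlgebraicClosure L) (fun _ : Unit => P.leadingCoeff)
      (fun _ => u ^ P.natDegree) v hv a ha n r t hn hnr ?_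
    have h1 := congrArg (algebraMap L (AlgebraicClosure L)) huv
    rw [map_mul, map_mul, map_pow, map_pow, ← IsScalarTower.algebraMap_apply,
      ← IsScalarTower.algebraMap_apply, Algebra.norm_eq_prod_embeddings k (AlgebraicClosure L)] at h1
    rw [h1, mul_comm (Module.finrank k E), pow_mul, ← AlgHom.card k E (AlgebraicClosure L),
      ← Finset.card_univ, ← Finset.prod_const, ← Finset.prod_mul_distrib]
    refine Finset.prod_congr rfl fun σ _ => ?_
    rw [Fintype.sum_unique, map_pow]

/-- no section over `L` -/
lemma no_sec [IsGalois k E'] [IsCyclic (E' ≃ₐ[k] E')] (L : Type) [Field L] [Algebra k L]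
    [FiniteDimensional k L] (n r t : ℕ) (hn : 0 < n)
    (hnr : n * r = Module.finrank k E' * t) (a : k) (ha : a ≠ 0)
    (hnot : ¬ ∃ e : E', Algebra.norm k e =
      a ^ (fac (Module.finrank k E') t * r * Module.finrank k L))
    (P : E[X]) (hP : ConjugatesCoprime k P) : NoSection L P a n := by
  intro F Ω _ _ _ _ _ _ _ _ _ x y U hon hU
  have hcl : IsAlgClosed Ω := IsAlgClosure.isAlgClosed F
  have halg : Algebra.IsAlgebraic F Ω := IsAlgClosure.isAlgebraic
  have hcL : CharZero L := charZero_of_injective_algebraMap (algebraMap k L).injective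
  have hac : IsAlgClosure L (algebraicClosure L Ω) := inferInstance
  have hA : IsAlgClosed (algebraicClosure L Ω) := hac.1
  refine toSec U ⟨fun G => hnot ?_⟩
  unfold OnCurve at hon
  set j : algebraicClosure L Ω →+* Ω := algebraMap (algebraicClosure L Ω) Ω with hj
  have hev : ∀ i : E →ₐ[k] algebraicClosure L Ω,
      (P.map (i : E →+* algebraicClosure L Ω)).eval₂ j (algebraMap F Ω x) =
      ∑ l : Fin (P.natDegree + 1), j (i (P.coeff l)) * algebraMap F Ω (x ^ (l : ℕ)) := by
    intro i
    rw [eval_sum]
    refine Finset.sum_congr rfl fun l _ => ?_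
    rw [map_pow]
    rfl
  have hprod1 : ∏ i : E →ₐ[k] algebraicClosure L Ω,
      (P.map (i : E →+* algebraicClosure L Ω)).eval₂ j (algebraMap F Ω x) =
      algebraMap k Ω a * algebraMap F Ω y ^ n := by
    rw [← hon, ← prod_closure (L := L)]
    refine Finset.prod_congr rfl fun i _ => ?_
    rw [eval₂_map]
    rfl
  have hprod : ∏ i : E →ₐ[k] algebraicClosure L Ω,
      ∑ l : Fin (P.natDegree + 1), j (i (P.coeff l)) * algebraMap F Ω (x ^ (l : ℕ)) =
      algebraMap k Ω a * algebraMap F Ω y ^ n := by
    rw [← hprod1]
    exact Finset.prod_congr rfl fun i _ => (hev i).symm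
  by_cases hy0 : y = 0
  · have hprod0 := hprod
    rw [hy0, map_zero, zero_pow hn.ne', mul_zero] at hprod0
    obtain ⟨i, -, hi⟩ := Finset.prod_eq_zero_iff.1 hprod0
    refine norm_of_embeds i (fun σ z => ?_) a _
    have h1 := zero_act U hU G (fun l : Fin (P.natDegree + 1) => P.coeff l)
      (fun l => x ^ (l : ℕ)) i hi σ
    have h3 := unique_root j P hP
      (((σ : algebraicClosure L Ω →ₐ[L] algebraicClosure L Ω).restrictScalars k).comp i) i
      (algebraMap F Ω x) (by rw [hev]; exact h1) (by rw [hev]; exact hi)
    exact DFunLike.congr_fun h3 z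
  have hprod0 : ∏ i : E →ₐ[k] algebraicClosure L Ω,
      (P.map (i : E →+* algebraicClosure L Ω)).eval₂ j (algebraMap F Ω x) ≠ 0 := by
    rw [hprod1]
    exact mul_ne_zero ((_root_.map_ne_zero _).2 ha) (pow_ne_zero _ ((_root_.map_ne_zero _).2 hy0))
  have h0 : ∀ i : E →ₐ[k] algebraicClosure L Ω,
      (P.map (i : E →+* algebraicClosure L Ω)).eval₂ j (algebraMap F Ω x) ≠ 0 := fun i hi =>
    hprod0 (Finset.prod_eq_zero (Finset.mem_univ i) hi)
  have hWk : ∀ W : ValuationSubring Ω, W.comap (algebraMap F Ω) ∈ U →
      ∀ c : L, algebraMap L Ω c ∈ W := by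
    intro W hW c
    rw [IsScalarTower.algebraMap_apply L F Ω]
    exact hU _ hW c
  have hWA : ∀ W : ValuationSubring Ω, W.comap (algebraMap F Ω) ∈ U →
      ∀ c : algebraicClosure L Ω, j c ∈ W := by
    intro W hW c
    exact const_mem (hWk W hW) c.2
  refine genL U hU G (fun l : Fin (P.natDegree + 1) => P.coeff l) (fun l => x ^ (l : ℕ)) y hy0 a ha
    n r t hn hnr hprod ?_
  intro i i' W hW
  obtain ⟨m, h1, h2, h3⟩ := ratio_poly j W (hWA W hW)
    (fun i : E →ₐ[k] algebraicClosure L Ω => P.map (i : E →+* algebraicClosure L Ω))
    (fun i i' hii => coprime_lift P hP i i' hii) P.natDegree (fun i => natDegree_map _)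
    (algebraMap F Ω x) (algebraMap F Ω y) n hn (algebraMap k (algebraicClosure L Ω) a)
    ((_root_.map_ne_zero _).2 ha) hprod1 h0 i i'
  rw [← hev, ← hev]
  refine ⟨algebraMap F Ω y ^ m, ?_, h1, h2, h3⟩
  rw [← map_zpow₀]
  exact IntermediateField.algebraMap_mem _ _

end proof

/-- Let `k` be a field of characteristic zero, for instance a finite extension of `ℚ_p`, `E/k` a finite
extension, and `E' ⊆ E` a field which is a cyclic extension of `k`, for instance wildly ramified.  Let
`L/k` be a finite extension, `n ≥ 1`, `n r = [E' : k] t`, and `ε = 1` if `[E' : k]` is odd or `t` is even,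
`ε = 2` otherwise.  Let `a ∈ kˣ`, and let `P ∈ E[x]` have pairwise coprime conjugates over `k`.  If
`a^(ε r [L : k])` is not a norm from `E'`, then the curve `a yⁿ = N_{E/k}(P(x))` has no point over `L`,
also at infinity, and the fundamental groups of its open subcurves over `L` and of all smooth curves
over `L` that dominate it have no sections over `G_L`. -/
theorem result (k E' E : Type) [Field k] [CharZero k] [Field E'] [Field E] [Algebra k E']
    [Algebra k E] [Algebra E' E] [IsScalarTower k E' E] [FiniteDimensional k E] [IsGalois k E']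
    [IsCyclic (E' ≃ₐ[k] E')] : NothingIfNotNorm k E' E := by
  intro L _ _ _ n r t hn hnr a ha hnot P hP
  exact ⟨no_point L n r t hn hnr a ha hnot P hP, no_sec L n r t hn hnr a ha hnot P hP⟩

end Pool.Agent.Results.MP_c385f6_ag.SuperellipticNormCurves
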